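import Pool.Agent.W41.Fin

set_option autoImplicit false

/-!
Sets invariant under the Collatz map in sifted arithmetic progressions to all moduli.

An invariant set has the same relative density among the integers of a residue class modulo `q`
without prime factors from a set `P`, for all moduli `q` and all sets `P` of primes up to a small
power of the size of the integers, uniformly in the invariant set. So every merging class contains
almost primes in every reduced residue class, of the size of a power of the modulus, and the Collatz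
problem can be restricted to very sparse sets of such integers.
-/

namespace Pool.Agent.Results.MP_d02c56_nt.AlmostPrimesAllModuli

open Filter Topology

/-- The Collatz map on the integers. -/
def C (x : ℤ) : ℤ := if x % 2 = 0 then x / 2 else 3 * x + 1

/-- `S` is invariant under the Collatz map and its inverse. -/
def Invariant (S : Set ℤ) : Prop := ∀ x : ℤ, x ∈ S ↔ C x ∈ S

/-- Among the integers of sign `s` the set `S` has natural density `δ`. -/
def HasDensity (s : ℤ) (S : Set ℤ) (δ : ℝ) : Prop :=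
  Tendsto (fun N : ℕ => ({n : ℤ | 0 < s * n ∧ s * n ≤ N ∧ n ∈ S}.ncard : ℝ) / N) atTop (𝓝 δ)

/-- The integers `n ≡ a` mod `q` of sign `s` with `M < |n| ≤ N` that no element of `P` divides. -/
def Sifted (s : ℤ) (M N q : ℕ) (a : ℤ) (P : Set ℕ) : Set ℤ :=
  {n : ℤ | (M : ℤ) < s * n ∧ s * n ≤ N ∧ n ≡ a [ZMOD q] ∧ ∀ p ∈ P, ¬ (p : ℤ) ∣ n}

/-- The union of the five known cycles. -/
def Known : Finset ℤ := {1, 4, 2, -1, -2, -5, -14, -7, -20, -10, -17, -50, -25, -74, -37, -110,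
  -55, -164, -82, -41, -122, -61, -182, -91, -272, -136, -68, -34, 0}

/-- The trajectory of `x` reaches one of the five known cycles. -/
def Reaches (x : ℤ) : Prop := ∃ k : ℕ, C^[k] x ∈ Known

theorem known_closed : ∀ x ∈ Known, C x ∈ Known := by decide

theorem reaches_inv : Invariant {x | Reaches x} := by
  intro x
  constructor
  · rintro ⟨k, hk⟩
    cases k with
    | zero => exact ⟨0, known_closed x hk⟩
    | succ k => exact ⟨k, by rw [Function.iterate_succ_apply] at hk; exact hk⟩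
  · rintro ⟨k, hk⟩
    exact ⟨k + 1, by rw [Function.iterate_succ_apply]; exact hk⟩

open Pool.Agent.W41 Pool.Agent.H499R2.ND

theorem inv_of {S : Set ℤ} (hS : Invariant S) : Inv 1 S := by
  intro x
  have e : Td 1 x = C x ∨ Td 1 x = C (C x) := by
    unfold Td C
    by_cases h : x % 2 = 0
    · left; simp [h]
    · right
      have h2 : (3 * x + 1) % 2 = 0 := by omega
      simp [h, h2]
  rcases e with h | h
  · rw [h]; exact hS x
  · rw [h]; exact (hS x).trans (hS (C x))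

theorem HD_iff {s : ℤ} (hs : s = 1 ∨ s = -1) {S : Set ℤ} (hS : Invariant S) :
    ∃ δ : ℝ, HD s S δ ∧ HasDensity s S δ := by
  obtain ⟨δ, -, -, h⟩ := dens_side (d := 1) odd_one (by norm_num) hs (inv_of hS)
  exact ⟨δ, h, HD_ncard hs h⟩

theorem sifted_inter (s : ℤ) (S : Set ℤ) (M N q : ℕ) (a : ℤ) (P : Set ℕ) :
    S ∩ Sifted s M N q a P =
      {n : ℤ | n ∈ S ∧ (M : ℤ) < s * n ∧ s * n ≤ N ∧ n ≡ a [ZMOD q] ∧ ∀ p ∈ P, ¬ (p : ℤ) ∣ n} := rfl

theorem sifted_univ (s : ℤ) (M N q : ℕ) (a : ℤ) (P : Set ℕ) :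
    Sifted s M N q a P = Set.univ ∩ Sifted s M N q a P := (Set.univ_inter _).symm

/-- reduction to a finite set of primes not dividing `q` -/
theorem reduce (q : ℕ) (a : ℤ) (P : Set ℕ) {B : ℝ} (hP : ∀ p ∈ P, p.Prime ∧ (p : ℝ) ≤ B)
    (h : ¬ ∃ p ∈ P, p ∣ q ∧ (p : ℤ) ∣ a) : ∃ F : Finset ℕ, (∀ p ∈ F, p.Prime ∧ (p : ℝ) ≤ B ∧ ¬ p ∣ q) ∧
    ∀ (s : ℤ) (M N : ℕ), Sifted s M N q a P = Sifted s M N q a F := by
  classical
  have hfin : {p : ℕ | p ∈ P ∧ ¬ p ∣ q}.Finite := by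
    apply (Set.finite_Iic ⌊B⌋₊).subset
    intro p hp
    exact Nat.le_floor (hP p hp.1).2
  refine ⟨hfin.toFinset, fun p hp => ?_, fun s M N => ?_⟩
  · rw [Set.Finite.mem_toFinset] at hp
    exact ⟨(hP p hp.1).1, (hP p hp.1).2, hp.2⟩
  · ext n
    unfold Sifted
    simp only [Set.mem_ofPred_eq, Finset.mem_coe, Set.Finite.mem_toFinset]
    constructor
    · rintro ⟨h1, h2, h3, h4⟩
      exact ⟨h1, h2, h3, fun p hp => h4 p hp.1⟩
    · rintro ⟨h1, h2, h3, h4⟩
      refine ⟨h1, h2, h3, fun p hp hd => ?_⟩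
      by_cases hq : p ∣ q
      · apply h
        refine ⟨p, hp, hq, ?_⟩
        have h5 : (p : ℤ) ∣ (q : ℤ) := by exact_mod_cast hq
        have h6 : (p : ℤ) ∣ a - n := h5.trans h3.dvd
        have h7 := dvd_add h6 hd
        rwa [sub_add_cancel] at h7
      · exact h4 p ⟨hp, hq⟩ hd

/-- the main estimate for a finite set of primes -/
theorem main_fin {s : ℤ} (hs : s = 1 ∨ s = -1) {ε : ℝ} (hε : 0 < ε) (hε1 : ε ≤ 1) : ∃ θ : ℝ, 0 < θ ∧
    ∃ N₀ : ℕ, 2 ≤ N₀ ∧ ∀ S : Set ℤ, Invariant S → ∀ δ : ℝ, HD s S δ → ∀ N : ℕ, N₀ ≤ N → ∀ M : ℕ, M ≤ N →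
    ∀ q : ℕ, 1 ≤ q → (q : ℝ) ≤ (N : ℝ) ^ θ → ∀ P : Finset ℕ,
    (∀ p ∈ P, p.Prime ∧ (p : ℝ) ≤ (N : ℝ) ^ θ ∧ ¬ p ∣ q) → ∀ a : ℤ,
    |((S ∩ Sifted s M N q a P).ncard : ℝ) - δ * (V P * ((N - M) / q))| ≤ ε * (V P * (N / q)) ∧
    |((Sifted s M N q a P).ncard : ℝ) - V P * ((N - M) / q)| ≤ ε * (V P * (N / q)) ∧
    |((Sifted s 0 N q a P).ncard : ℝ) - V P * (N / q)| ≤ ε * (V P * (N / q)) ∧
    0 < V P * ((N : ℝ) / q) := by
  obtain ⟨θ, hθ, N0, hN0, H⟩ := interval hs hε hε1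
  refine ⟨θ, hθ, N0, hN0, fun S hS δ hδ N hN M hMN q hq hqN P hP a => ?_⟩
  have hinvu : Inv 1 (Set.univ : Set ℤ) := fun x => by simp
  have h1 := H S (inv_of hS) δ hδ N hN M hMN q hq hqN P hP (s * a)
  have h2 := H Set.univ hinvu 1 (HD_univ hs) N hN M hMN q hq hqN P hP (s * a)
  have h3 := H Set.univ hinvu 1 (HD_univ hs) N hN 0 (Nat.zero_le _) q hq hqN P hP (s * a)
  rw [← ncard_eq hs S hMN] at h1
  rw [← ncard_eq hs Set.univ hMN] at h2
  rw [← ncard_eq hs Set.univ (Nat.zero_le _)] at h3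
  have hV := V_pos fun p hp => (hP p hp).1
  have hN' : (0 : ℝ) < N := by exact_mod_cast (by omega : 0 < N)
  have hq' : (0 : ℝ) < q := by exact_mod_cast hq
  refine ⟨h1, ?_, ?_, by positivity⟩
  · rw [one_mul] at h2
    rw [sifted_univ]
    exact h2
  · have e0 : (N : ℝ) - ((0 : ℕ) : ℝ) = N := by simp
    rw [one_mul, e0] at h3
    rw [sifted_univ]
    exact h3

/-- existence of elements -/
theorem exists_elt {s : ℤ} (hs : s = 1 ∨ s = -1) {S : Set ℤ} (hS : Invariant S) (hne : ∃ x ∈ S, 0 < s * x) :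
    ∃ θ : ℝ, 0 < θ ∧ ∃ N₀ : ℕ, 2 ≤ N₀ ∧ ∀ N : ℕ, N₀ ≤ N → ∀ M : ℕ, 2 * M ≤ N →
    ∀ q : ℕ, 1 ≤ q → (q : ℝ) ≤ (N : ℝ) ^ θ → ∀ P : Finset ℕ,
    (∀ p ∈ P, p.Prime ∧ (p : ℝ) ≤ (N : ℝ) ^ θ ∧ ¬ p ∣ q) → ∀ a : ℤ, ∃ n ∈ S, n ∈ Sifted s M N q a P := by
  obtain ⟨δ, hδ, -⟩ := HD_iff hs hS
  obtain ⟨x, hx, hx0⟩ := hne
  have hpos := one_pos hs (inv_of hS) hx hx0 hδ
  obtain ⟨θ, hθ, N0, hN0, H⟩ := main_fin hs (show 0 < min (δ / 4) 1 from lt_min (by positivity) one_pos)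
    (min_le_right _ _)
  refine ⟨θ, hθ, N0, hN0, fun N hN M hMN q hq hqN P hP a => ?_⟩
  obtain ⟨h1, -, -, h4⟩ := H S hS δ hδ N hN M (by omega) q hq hqN P hP a
  have hM : 2 * (M : ℝ) ≤ N := by exact_mod_cast hMN
  have hq' : (0 : ℝ) < q := by exact_mod_cast hq
  have hV := V_pos fun p hp => (hP p hp).1
  have h5 : V P * ((N : ℝ) / q) / 2 ≤ V P * ((N - M) / q) := by
    rw [mul_div_assoc]
    apply mul_le_mul_of_nonneg_left _ hV.le
    rw [div_div, mul_comm, ← div_div]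
    apply div_le_div_of_nonneg_right _ hq'.le
    linarith
  have h6 : min (δ / 4) 1 * (V P * ((N : ℝ) / q)) ≤ δ / 4 * (V P * (N / q)) :=
    mul_le_mul_of_nonneg_right (min_le_left _ _) h4.le
  have h7 : 0 < ((S ∩ Sifted s M N q a P).ncard : ℝ) := by
    have h8 := (abs_le.1 h1).1
    have h9 := mul_le_mul_of_nonneg_left h5 hpos.le
    have h10 : 0 < δ * (V P * ((N : ℝ) / q)) := mul_pos hpos h4
    linarith
  have h11 : (S ∩ Sifted s M N q a P).Nonempty := by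
    apply Set.nonempty_of_ncard_ne_zero
    exact_mod_cast h7.ne'
  obtain ⟨n, hn⟩ := h11
  exact ⟨n, hn.1, hn.2⟩

theorem omega_le {n : ℕ} (hn : n ≠ 0) {B : ℝ} (hB : 0 ≤ B) (h : ∀ p : ℕ, p.Prime → p ∣ n → B ≤ p) :
    B ^ (ArithmeticFunction.cardFactors n) ≤ n := by
  rw [ArithmeticFunction.cardFactors_apply]
  have e : ((n.primeFactorsList.map (fun p : ℕ => (p : ℝ))).prod) = n := by
    have := Nat.prod_primeFactorsList hn
    rw [← Nat.cast_list_prod, this]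
  rw [← e, ← List.length_map (fun p : ℕ => (p : ℝ))]
  have key : ∀ l : List ℝ, (∀ x ∈ l, B ≤ x) → B ^ l.length ≤ l.prod := by
    intro l
    induction l with
    | nil => intro _; simp
    | cons x l ih =>
      intro hl
      rw [List.length_cons, List.prod_cons, pow_succ, mul_comm]
      exact mul_le_mul (hl x (by simp)) (ih fun y hy => hl y (by simp [hy])) (by positivity)
        (hB.trans (hl x (by simp)))
  apply key
  intro x hx
  rw [List.mem_map] at hx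
  obtain ⟨p, hp, rfl⟩ := hx
  exact h p (Nat.prime_of_mem_primeFactorsList hp) (Nat.dvd_of_mem_primeFactorsList hp)

/-- sparse sets -/
theorem third {s : ℤ} (hs : s = 1 ∨ s = -1) (ψ : ℕ → ℝ) (q : ℕ → ℕ) (a : ℕ → ℤ) (hψ : Tendsto ψ atTop (𝓝 0))
    (hq : ∀ j, 1 ≤ q j ∧ (q j : ℝ) ≤ (2 : ℝ) ^ (ψ j * j)) (S : Set ℤ) (hS : Invariant S)
    (hfreq : ∃ᶠ j in atTop, ∀ x : ℤ, (2 : ℤ) ^ j < s * x → s * x ≤ 2 ^ (j + 1) → x ≡ a j [ZMOD q j] →
      (∀ p : ℕ, p.Prime → (p : ℤ) ∣ x → ¬ p ∣ q j → (2 : ℝ) ^ (ψ j * j) < p) → x ∈ S) :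
    ∀ x : ℤ, 0 < s * x → x ∈ S := by
  intro x hsx
  by_contra hx
  have hSc : Invariant Sᶜ := fun x => not_congr (hS x)
  obtain ⟨θ, hθ, N0, hN0, H⟩ := exists_elt hs hSc ⟨x, hx, hsx⟩
  have hev : ∀ᶠ j : ℕ in atTop, ψ j ≤ θ ∧ N0 ≤ j :=
    ((hψ.eventually (gt_mem_nhds hθ)).mono fun _ h => h.le).and (eventually_ge_atTop N0)
  obtain ⟨j, hj, hψj, hNj⟩ := (hfreq.and_eventually hev).exists
  have h2j : j < 2 ^ j := Nat.lt_two_pow_self
  have hle : (2 : ℝ) ^ (ψ j * j) ≤ ((2 ^ (j + 1) : ℕ) : ℝ) ^ θ := by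
    push_cast
    rw [← Real.rpow_natCast, ← Real.rpow_mul (by norm_num)]
    apply Real.rpow_le_rpow_of_exponent_le (by norm_num)
    push_cast
    have h1 : ψ j * j ≤ θ * j := mul_le_mul_of_nonneg_right hψj (Nat.cast_nonneg _)
    nlinarith
  set P : Finset ℕ := (Finset.range (⌊(2 : ℝ) ^ (ψ j * j)⌋₊ + 1)).filter (fun p => p.Prime ∧ ¬ p ∣ q j) with hP
  obtain ⟨n, hnS, h1, h2, h3, h4⟩ := H (2 ^ (j + 1)) (by rw [pow_succ]; omega) (2 ^ j) (by rw [pow_succ]; omega)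
    (q j) (hq j).1 ((hq j).2.trans hle) P (fun p hp => by
    rw [hP, Finset.mem_filter, Finset.mem_range] at hp
    refine ⟨hp.2.1, ?_, hp.2.2⟩
    have h1 : p ≤ ⌊(2 : ℝ) ^ (ψ j * j)⌋₊ := by omega
    exact ((Nat.le_floor_iff (by positivity)).1 h1).trans hle) (a j)
  apply hnS
  push_cast at h1 h2
  refine hj n h1 h2 h3 fun p hp hpn hpq => ?_
  by_contra hcon
  push Not at hcon
  apply h4 p _ hpn
  rw [Finset.mem_coe, hP, Finset.mem_filter, Finset.mem_range]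
  exact ⟨Nat.lt_succ_of_le (Nat.le_floor hcon), hp, hpq⟩

/-- (1) For every `ε > 0` there are `θ > 0` and `N₀` such that every set `S` invariant under the
Collatz map has among the integers of sign `s` a natural density `δ`, and for all `N ≥ N₀`, all
`M ≤ N`, all moduli `q ≤ N ^ θ`, all sets `P` of primes `p ≤ N ^ θ` and all `a`, the number of the
elements of `S` among the integers `n ≡ a` mod `q` of sign `s` with `M < |n| ≤ N` and no prime factor
in `P` is `δ` times the number of all such integers, up to `ε` times the number of those with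
`|n| ≤ N`.
(2) If `S` contains an integer of sign `s` there is `A` such that for all `q`, all `N ≥ A q ^ A` and
all `a` some `n ∈ S` of sign `s` has `N / 2 < |n| ≤ N` and `n ≡ a` mod `q`, and is a product of at
most `A` primes if `a` is prime to `q`.
(3) Let `ψ` tend to `0`, let `q j ≤ 2 ^ (ψ j * j)`, and suppose that for infinitely many `j` the set `S`
contains all integers `x ≡ a j` mod `q j` of sign `s` with `2 ^ j < |x| ≤ 2 ^ (j + 1)` such that all
prime factors of `x` that do not divide `q j` exceed `2 ^ (ψ j * j)`. Then `S` contains all integers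
of sign `s`.
(4) The same for both signs and the set of the integers that reach one of the five known cycles. -/
theorem result :
    (∀ s : ℤ, (s = 1 ∨ s = -1) →
      (∀ ε : ℝ, 0 < ε → ∃ θ : ℝ, 0 < θ ∧ ∃ N₀ : ℕ, ∀ S : Set ℤ, Invariant S → ∃ δ : ℝ, HasDensity s S δ ∧
        ∀ N : ℕ, N₀ ≤ N → ∀ M : ℕ, M ≤ N → ∀ q : ℕ, 1 ≤ q → (q : ℝ) ≤ (N : ℝ) ^ θ →
        ∀ P : Set ℕ, (∀ p ∈ P, p.Prime ∧ (p : ℝ) ≤ (N : ℝ) ^ θ) → ∀ a : ℤ,
          |((S ∩ Sifted s M N q a P).ncard : ℝ) - δ * (Sifted s M N q a P).ncard|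
            ≤ ε * (Sifted s 0 N q a P).ncard) ∧
      (∀ S : Set ℤ, Invariant S → (∃ x ∈ S, 0 < s * x) → ∃ A : ℕ, ∀ q : ℕ, 1 ≤ q →
        ∀ N : ℕ, A * q ^ A ≤ N → ∀ a : ℤ, ∃ n ∈ S, (N : ℤ) < 2 * (s * n) ∧ s * n ≤ N ∧
          n ≡ a [ZMOD q] ∧ (IsCoprime a q → ArithmeticFunction.cardFactors n.natAbs ≤ A)) ∧
      (∀ (ψ : ℕ → ℝ) (q : ℕ → ℕ) (a : ℕ → ℤ), Tendsto ψ atTop (𝓝 0) →
        (∀ j, 1 ≤ q j ∧ (q j : ℝ) ≤ (2 : ℝ) ^ (ψ j * j)) → ∀ S : Set ℤ, Invariant S →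
        (∃ᶠ j in atTop, ∀ x : ℤ, (2 : ℤ) ^ j < s * x → s * x ≤ 2 ^ (j + 1) → x ≡ a j [ZMOD q j] →
          (∀ p : ℕ, p.Prime → (p : ℤ) ∣ x → ¬ p ∣ q j → (2 : ℝ) ^ (ψ j * j) < p) → x ∈ S) →
        ∀ x : ℤ, 0 < s * x → x ∈ S)) ∧
    (∀ (ψ : ℕ → ℝ) (q : ℕ → ℕ) (a : ℕ → ℤ), Tendsto ψ atTop (𝓝 0) →
      (∀ j, 1 ≤ q j ∧ (q j : ℝ) ≤ (2 : ℝ) ^ (ψ j * j)) →
      (∃ᶠ j in atTop, ∀ x : ℤ, (2 : ℤ) ^ j < |x| → |x| ≤ 2 ^ (j + 1) → x ≡ a j [ZMOD q j] →
        (∀ p : ℕ, p.Prime → (p : ℤ) ∣ x → ¬ p ∣ q j → (2 : ℝ) ^ (ψ j * j) < p) → Reaches x) →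
      ∀ x : ℤ, Reaches x) := by
  refine ⟨fun s hs => ⟨?_, ?_, third hs⟩, ?_⟩
  · intro ε hε
    obtain ⟨θ, hθ, N0, hN0, H⟩ := main_fin hs (show 0 < min (ε / 4) (1 / 2) from lt_min (by positivity) (by norm_num))
      (le_trans (min_le_right _ _) (by norm_num))
    refine ⟨θ, hθ, N0, fun S hS => ?_⟩
    obtain ⟨δ, hδ, hδ'⟩ := HD_iff hs hS
    refine ⟨δ, hδ', fun N hN M hMN q hq hqN P hP a => ?_⟩
    by_cases hex : ∃ p ∈ P, p ∣ q ∧ (p : ℤ) ∣ a
    · obtain ⟨p, hp, h1, h2⟩ := hex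
      have hemp : ∀ M, Sifted s M N q a P = ∅ := by
        intro M
        ext n
        simp only [Set.mem_empty_iff_false, iff_false]
        rintro ⟨-, -, h3, h4⟩
        apply h4 p hp
        have h5 : (p : ℤ) ∣ (q : ℤ) := by exact_mod_cast h1
        have h6 : (p : ℤ) ∣ a - n := h5.trans h3.dvd
        have h7 := dvd_sub h2 h6
        rwa [sub_sub_cancel] at h7
      rw [hemp, hemp]
      simp
    · obtain ⟨F, hF, hFe⟩ := reduce q a P hP hex
      rw [hFe, hFe]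
      obtain ⟨h1, h2, h3, h4⟩ := H S hS δ hδ N hN M hMN q hq hqN F hF a
      have hδ0 : 0 ≤ δ := ge_of_tendsto' (cF_tendsto hs hδ) fun N => by positivity
      have hδ1 : δ ≤ 1 := by
        apply le_of_tendsto' (cF_tendsto hs hδ) fun N => ?_
        apply div_le_one_of_le₀ _ (Nat.cast_nonneg _)
        have := cF_compl s S N
        exact_mod_cast (by omega : cF s S N ≤ N)
      set E : ℝ := V F * ((N : ℝ) / q) with hE
      have m1 : min (ε / 4) (1 / 2) * E ≤ ε / 4 * E := mul_le_mul_of_nonneg_right (min_le_left _ _) h4.le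
      have m2 : min (ε / 4) (1 / 2) * E ≤ 1 / 2 * E := mul_le_mul_of_nonneg_right (min_le_right _ _) h4.le
      have h5 : E ≤ 2 * (Sifted s 0 N q a F).ncard := by
        have := (abs_le.1 h3).1
        linarith
      have h6 : |((S ∩ Sifted s M N q a F).ncard : ℝ) - δ * (Sifted s M N q a F).ncard| ≤ ε / 2 * E := by
        have e : ((S ∩ Sifted s M N q a F).ncard : ℝ) - δ * (Sifted s M N q a F).ncard =
            (((S ∩ Sifted s M N q a F).ncard : ℝ) - δ * (V F * ((N - M) / q))) -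
            δ * ((Sifted s M N q a F).ncard - V F * ((N - M) / q)) := by ring
        rw [e]
        refine (abs_sub _ _).trans ?_
        have h7 : |δ * (((Sifted s M N q a F).ncard : ℝ) - V F * ((N - M) / q))| ≤ ε / 4 * E := by
          rw [abs_mul, abs_of_nonneg hδ0]
          calc _ ≤ 1 * |((Sifted s M N q a F).ncard : ℝ) - V F * ((N - M) / q)| :=
                mul_le_mul_of_nonneg_right hδ1 (abs_nonneg _)
            _ ≤ _ := by rw [one_mul]; exact h2.trans m1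
        linarith [h1.trans m1]
      have h8 : ε / 2 * E ≤ ε / 2 * (2 * (Sifted s 0 N q a F).ncard) := mul_le_mul_of_nonneg_left h5 (by positivity)
      linarith
  · intro S hS hne
    obtain ⟨θ, hθ, N0, hN0, H⟩ := exists_elt hs hS hne
    obtain ⟨A1, hA1⟩ := exists_nat_ge (1 / θ)
    refine ⟨max A1 N0, fun q hq N hN a => ?_⟩
    set A := max A1 N0 with hA
    have hA2 : 2 ≤ A := le_trans hN0 (le_max_right _ _)
    have hqA : 1 ≤ q ^ A := Nat.one_le_pow _ _ hq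
    have hNA : A ≤ N := le_trans (Nat.le_mul_of_pos_right _ hqA) hN
    have hN0N : N0 ≤ N := le_trans (le_max_right _ _) hNA
    have hNR : (2 : ℝ) ≤ N := by exact_mod_cast (by omega : 2 ≤ N)
    have hN1 : (0 : ℝ) < N := by linarith
    have hθA : 1 ≤ θ * A := by
      have h1 : (A1 : ℝ) ≤ A := by exact_mod_cast le_max_left _ _
      have h2 := hA1.trans h1
      rw [div_le_iff₀ hθ] at h2
      linarith
    have hqN : (q : ℝ) ≤ (N : ℝ) ^ θ := by
      have h1 : (q : ℝ) ^ A ≤ N := by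
        have : q ^ A ≤ N := le_trans (Nat.le_mul_of_pos_left _ (by omega)) hN
        exact_mod_cast this
      have h2 : (q : ℝ) ^ A ≤ ((N : ℝ) ^ θ) ^ A := by
        refine h1.trans ?_
        rw [← Real.rpow_natCast, ← Real.rpow_mul hN1.le]
        calc (N : ℝ) = (N : ℝ) ^ (1 : ℝ) := (Real.rpow_one _).symm
          _ ≤ _ := Real.rpow_le_rpow_of_exponent_le (by linarith) hθA
      exact le_of_pow_le_pow_left₀ (by omega) (by positivity) h2
    set P : Finset ℕ := (Finset.range (⌊(N : ℝ) ^ θ⌋₊ + 1)).filter (fun p => p.Prime ∧ ¬ p ∣ q) with hP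
    obtain ⟨n, hnS, h1, h2, h3, h4⟩ := H N hN0N (N / 2) (by omega) q hq hqN P (fun p hp => by
      rw [hP, Finset.mem_filter, Finset.mem_range] at hp
      refine ⟨hp.2.1, ?_, hp.2.2⟩
      have h1 : p ≤ ⌊(N : ℝ) ^ θ⌋₊ := by omega
      exact (Nat.le_floor_iff (by positivity)).1 h1) a
    refine ⟨n, hnS, by omega, h2, h3, fun hco => ?_⟩
    have hn0 : n ≠ 0 := by
      rintro rfl
      rw [mul_zero] at h1
      omega
    have hnN : (n.natAbs : ℝ) ≤ N := by
      have : (n.natAbs : ℤ) ≤ N := by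
        rcases hs with rfl | rfl <;> omega
      exact_mod_cast this
    have h5 : ((N : ℝ) ^ θ) ^ (ArithmeticFunction.cardFactors n.natAbs) ≤ n.natAbs := by
      apply omega_le (Int.natAbs_ne_zero.2 hn0) (by positivity)
      intro p hp hpn
      by_contra hcon
      push Not at hcon
      have hpn' : (p : ℤ) ∣ n := Int.natCast_dvd.2 hpn
      have hpq : ¬ p ∣ q := by
        intro hpq
        have h5 : (p : ℤ) ∣ (q : ℤ) := by exact_mod_cast hpq
        have h6 : (p : ℤ) ∣ a - n := h5.trans h3.dvd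
        have h7 := dvd_add h6 hpn'
        rw [sub_add_cancel] at h7
        have h8 := hco.isUnit_of_dvd' h7 h5
        have h9 := Int.isUnit_iff_natAbs_eq.1 h8
        simp at h9
        exact hp.one_lt.ne' h9
      apply h4 p _ hpn'
      rw [Finset.mem_coe, hP, Finset.mem_filter, Finset.mem_range]
      exact ⟨Nat.lt_succ_of_le (Nat.le_floor hcon.le), hp, hpq⟩
    have h6 : ((N : ℝ) ^ θ) ^ (ArithmeticFunction.cardFactors n.natAbs) ≤ ((N : ℝ) ^ θ) ^ A := by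
      refine (h5.trans hnN).trans ?_
      rw [← Real.rpow_natCast, ← Real.rpow_mul hN1.le]
      calc (N : ℝ) = (N : ℝ) ^ (1 : ℝ) := (Real.rpow_one _).symm
        _ ≤ _ := Real.rpow_le_rpow_of_exponent_le (by linarith) hθA
    exact (pow_le_pow_iff_right₀ (Real.one_lt_rpow (by linarith) hθ)).1 h6
  · intro ψ q a hψ hq hfreq x
    rcases lt_trichotomy x 0 with hx | hx | hx
    · refine third (Or.inr rfl) ψ q a hψ hq {x | Reaches x} reaches_inv ?_ x (by omega)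
      refine hfreq.mono fun j hj x h1 h2 h3 h4 => hj x ?_ ?_ h3 h4
      · have hpos : (0 : ℤ) < 2 ^ j := by positivity
        rw [abs_of_neg (by omega)]; omega
      · have hpos : (0 : ℤ) < 2 ^ j := by positivity
        rw [abs_of_neg (by omega)]; omega
    · rw [hx]; exact ⟨0, by decide⟩
    · refine third (Or.inl rfl) ψ q a hψ hq {x | Reaches x} reaches_inv ?_ x (by omega)
      refine hfreq.mono fun j hj x h1 h2 h3 h4 => hj x ?_ ?_ h3 h4
      · have hpos : (0 : ℤ) < 2 ^ j := by positivity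
        rw [abs_of_pos (by omega)]; omega
      · have hpos : (0 : ℤ) < 2 ^ j := by positivity
        rw [abs_of_pos (by omega)]; omega

end Pool.Agent.Results.MP_d02c56_nt.AlmostPrimesAllModuli
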