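import Pool.Agent.W41.FU12

set_option autoImplicit false

/-!
Fourier uniformity of the sets invariant under the Collatz map, and linear equations in such sets.

The indicator function of an invariant set, minus its density, has small correlation with all
exponential functions, uniformly in the frequency and in the set. So the numbers of solutions of
linear equations in three unknowns in invariant sets (for example in merging classes) are those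
predicted by the densities: Schur triples, three term progressions, representations of an integer as
a sum of three, and of almost every integer as a sum of two elements of given classes.
-/

namespace Pool.Agent.Results.MP_d02c56_nt.FourierUniformity

open Filter Topology

/-- The Collatz map on the integers. -/
def C (x : ℤ) : ℤ := if x % 2 = 0 then x / 2 else 3 * x + 1

/-- The shortcut map. -/
def T (x : ℤ) : ℤ := if x % 2 = 0 then x / 2 else (3 * x + 1) / 2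

/-- `S` is invariant under the Collatz map and its inverse. -/
def Invariant (S : Set ℤ) : Prop := ∀ x : ℤ, x ∈ S ↔ C x ∈ S

/-- Among the integers of sign `s` the set `S` has natural density `δ`. -/
def HasDensity (s : ℤ) (S : Set ℤ) (δ : ℝ) : Prop :=
  Tendsto (fun N : ℕ => ({n : ℤ | 0 < s * n ∧ s * n ≤ N ∧ n ∈ S}.ncard : ℝ) / N) atTop (𝓝 δ)

/-- A bounded function on the integers that has the same value at any two integers whose
trajectories under the shortcut map are at some time at the same point. -/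
def Synchronous (F : ℤ → ℝ) : Prop :=
  (∀ x, |F x| ≤ 1) ∧ ∀ (j : ℕ) (x y : ℤ), T^[j] x = T^[j] y → F x = F y

/-- `exp (2 π i θ)` -/
noncomputable def e (θ : ℝ) : ℂ := Complex.exp (2 * Real.pi * θ * Complex.I)

/-- The elements `x` of `S` of sign `s` with `M < |x| ≤ N`. -/
def Part (s : ℤ) (M N : ℕ) (S : Set ℤ) : Set ℤ := {x : ℤ | x ∈ S ∧ (M : ℤ) < s * x ∧ s * x ≤ N}

/-- The number of solutions of `a x + b y + c z = m` with `x ∈ X`, `y ∈ Y`, `z ∈ Z`. -/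
noncomputable def Sol (a b c m : ℤ) (X Y Z : Set ℤ) : ℕ :=
  {p : ℤ × ℤ × ℤ | p.1 ∈ X ∧ p.2.1 ∈ Y ∧ p.2.2 ∈ Z ∧ a * p.1 + b * p.2.1 + c * p.2.2 = m}.ncard

/-- The number of pairs `x ∈ X`, `y ∈ Y` of integers of sign `s` with `x + y = s n`. -/
noncomputable def Rep (s : ℤ) (n : ℕ) (X Y : Set ℤ) : ℕ :=
  {p : ℤ × ℤ | p.1 ∈ X ∧ p.2 ∈ Y ∧ 0 < s * p.1 ∧ 0 < s * p.2 ∧ p.1 + p.2 = s * n}.ncard

/-- The number of `x ∈ X` of sign `s` with `|x| ≤ N` and `x + s h ∈ Y`. -/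
noncomputable def Corr (s : ℤ) (N h : ℕ) (X Y : Set ℤ) : ℕ :=
  {x : ℤ | x ∈ X ∧ x + s * h ∈ Y ∧ 0 < s * x ∧ s * x ≤ N}.ncard

/-- The union of the five known cycles. -/
def Known : Finset ℤ := {1, 4, 2, -1, -2, -5, -14, -7, -20, -10, -17, -50, -25, -74, -37, -110,
  -55, -164, -82, -41, -122, -61, -182, -91, -272, -136, -68, -34, 0}

/-- The trajectory of `x` reaches one of the five known cycles. -/
def Reaches (x : ℤ) : Prop := ∃ k : ℕ, C^[k] x ∈ Known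

theorem known_closed : ∀ x ∈ Known, C x ∈ Known := by decide

theorem reaches_inv : Invariant {x | Reaches x} := by
  intro x
  constructor
  · rintro ⟨k, hk⟩
    cases k with
    | zero => exact ⟨0, known_closed x hk⟩
    | succ k => exact ⟨k, by rw [Function.iterate_succ_apply] at hk; exact hk⟩
  · rintro ⟨k, hk⟩
    exact ⟨k + 1, by rw [Function.iterate_succ_apply]; exact hk⟩

open Pool.Agent.W41 Pool.Agent.H499R2.ND Pool.Agent.H499R2.CO Pool.Agent.W41.FU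

theorem inv_of {S : Set ℤ} (hS : Invariant S) : Inv 1 S := by
  intro x
  have e : Td 1 x = C x ∨ Td 1 x = C (C x) := by
    unfold Td C
    by_cases h : x % 2 = 0
    · left; simp [h]
    · right
      have h2 : (3 * x + 1) % 2 = 0 := by omega
      simp [h, h2]
  rcases e with h | h
  · rw [h]; exact hS x
  · rw [h]; exact (hS x).trans (hS (C x))

theorem HD_iff {s : ℤ} (hs : s = 1 ∨ s = -1) {S : Set ℤ} (hS : Invariant S) :
    ∃ δ : ℝ, HD s S δ ∧ HasDensity s S δ := by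
  obtain ⟨δ, -, -, h⟩ := dens_side (d := 1) odd_one (by norm_num) hs (inv_of hS)
  exact ⟨δ, h, HD_ncard hs h⟩

theorem HD_of {s : ℤ} (hs : s = 1 ∨ s = -1) {S : Set ℤ} (hS : Invariant S) {δ : ℝ} (h : HasDensity s S δ) :
    HD s S δ := by
  obtain ⟨δ', h1, h2⟩ := HD_iff hs hS
  rw [tendsto_nhds_unique h h2]
  exact h1

theorem T_sign {s : ℤ} (hs : s = 1 ∨ s = -1) (x : ℤ) : T (s * x) = s * Tz s x := by
  unfold T Tz
  rcases hs with rfl | rfl
  · simp only [one_mul]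
  · have h1 : (-1 * x) % 2 = 0 ↔ x % 2 = 0 := by omega
    by_cases h : x % 2 = 0
    · rw [if_pos (h1.2 h), if_pos h]; omega
    · rw [if_neg (fun h2 => h (h1.1 h2)), if_neg h]; omega

theorem T_sign_iter {s : ℤ} (hs : s = 1 ∨ s = -1) (j : ℕ) : ∀ x : ℤ, T^[j] (s * x) = s * (Tz s)^[j] x := by
  induction j with
  | zero => intro x; rfl
  | succ j ih =>
    intro x
    rw [Function.iterate_succ_apply, Function.iterate_succ_apply, T_sign hs, ih]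

theorem synchronous_same {s : ℤ} (hs : s = 1 ∨ s = -1) {F : ℤ → ℝ} (hF : Synchronous F) :
    (fun x => F (s * x)) ∈ SameT s := by
  refine ⟨fun x => hF.1 _, fun j x y h => hF.2 j _ _ ?_⟩
  rw [T_sign_iter hs, T_sign_iter hs, h]

theorem e_ee (α : ℝ) (n : ℕ) : e (α * n) = ee α (n : ℕ) := by
  unfold e ee
  congr 1
  push_cast
  ring

theorem sum_EE (f : ℤ → ℝ) (N : ℕ) (α : ℝ) :
    ∑ n ∈ Finset.Icc 1 N, (f (n : ℕ) : ℂ) * e (α * n) = EE f N α := by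
  unfold EE
  apply Finset.sum_congr rfl
  intro n _
  rw [e_ee]

theorem sol_eq {s t v : ℤ} (hs : s = 1 ∨ s = -1) (ht : t = 1 ∨ t = -1) (hv : v = 1 ∨ v = -1) (S S' S'' : Set ℤ)
    {X M₁ M₂ M₃ N₁ N₂ N₃ : ℕ} (h1 : N₁ ≤ X) (h2 : N₂ ≤ X) (h3 : N₃ ≤ X) (a b c m : ℤ) :
    (Sol a b c m (Part s M₁ N₁ S) (Part t M₂ N₂ S') (Part v M₃ N₃ S'') : ℝ) =
      TT (res M₁ N₁ (ind s S)) (res M₂ N₂ (ind t S')) (res M₃ N₃ (ind v S'')) X (a * s) (b * t) (c * v) m := by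
  have hres : ∀ (M N : ℕ) (s : ℤ) (S : Set ℤ) (x : ℤ), res M N (ind s S) x =
      @ite ℝ (((M : ℤ) < x ∧ x ≤ N) ∧ s * x ∈ S) (Classical.propDecidable _) 1 0 := by
    intro M N s S x
    unfold res ind
    by_cases h1 : (M : ℤ) < x ∧ x ≤ N <;> by_cases h2 : s * x ∈ S <;> simp [h1, h2]
  rw [TT_count (P := fun x => ((M₁ : ℤ) < x ∧ x ≤ N₁) ∧ s * x ∈ S) (Q := fun x => ((M₂ : ℤ) < x ∧ x ≤ N₂) ∧ t * x ∈ S')
    (R := fun x => ((M₃ : ℤ) < x ∧ x ≤ N₃) ∧ v * x ∈ S'') (hres M₁ N₁ s S) (hres M₂ N₂ t S') (hres M₃ N₃ v S'')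
    (fun x hx => by omega) (fun x hx => by omega) (fun x hx => by omega)]
  unfold Sol
  congr 1
  have e1 : {p : ℤ × ℤ × ℤ | p.1 ∈ Part s M₁ N₁ S ∧ p.2.1 ∈ Part t M₂ N₂ S' ∧ p.2.2 ∈ Part v M₃ N₃ S'' ∧
      a * p.1 + b * p.2.1 + c * p.2.2 = m} =
      (fun p : ℤ × ℤ × ℤ => (s * p.1, t * p.2.1, v * p.2.2)) '' {p : ℤ × ℤ × ℤ | (((M₁ : ℤ) < p.1 ∧ p.1 ≤ N₁) ∧ s * p.1 ∈ S) ∧
        (((M₂ : ℤ) < p.2.1 ∧ p.2.1 ≤ N₂) ∧ t * p.2.1 ∈ S') ∧ (((M₃ : ℤ) < p.2.2 ∧ p.2.2 ≤ N₃) ∧ v * p.2.2 ∈ S'') ∧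
        a * s * p.1 + b * t * p.2.1 + c * v * p.2.2 = m} := by
    ext ⟨x, y, z⟩
    simp only [Set.mem_ofPred_eq, Set.mem_image, Prod.mk.injEq, Prod.exists, Part]
    constructor
    · rintro ⟨⟨a1, a2, a3⟩, ⟨b1, b2, b3⟩, ⟨c1, c2, c3⟩, h⟩
      refine ⟨s * x, t * y, v * z, ⟨⟨⟨a2, a3⟩, ?_⟩, ⟨⟨b2, b3⟩, ?_⟩, ⟨⟨c2, c3⟩, ?_⟩, ?_⟩, s_mul hs x, s_mul ht y, s_mul hv z⟩
      · rwa [s_mul hs]
      · rwa [s_mul ht]
      · rwa [s_mul hv]
      · rw [mul_assoc, s_mul hs, mul_assoc, s_mul ht, mul_assoc, s_mul hv]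
        exact h
    · rintro ⟨x', y', z', ⟨⟨⟨a2, a3⟩, a1⟩, ⟨⟨b2, b3⟩, b1⟩, ⟨⟨c2, c3⟩, c1⟩, h⟩, rfl, rfl, rfl⟩
      rw [s_mul hs, s_mul ht, s_mul hv]
      refine ⟨⟨a1, a2, a3⟩, ⟨b1, b2, b3⟩, ⟨c1, c2, c3⟩, ?_⟩
      rw [← mul_assoc, ← mul_assoc, ← mul_assoc]
      exact h
  rw [e1, Set.ncard_image_of_injective]
  rintro ⟨x, y, z⟩ ⟨x', y', z'⟩ h
  simp only [Prod.mk.injEq] at h
  obtain ⟨h1, h2, h3⟩ := h
  have k1 := congrArg (fun x => s * x) h1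
  have k2 := congrArg (fun x => t * x) h2
  have k3 := congrArg (fun x => v * x) h3
  simp only [s_mul hs, s_mul ht, s_mul hv] at k1 k2 k3
  rw [k1, k2, k3]

theorem res_univ (M N : ℕ) (s : ℤ) : res M N (ind s Set.univ) = res M N (fun _ => 1) := by
  ext x
  unfold res ind
  simp

/-- linear equations in three invariant sets -/
theorem linear {s t v : ℤ} (hs : s = 1 ∨ s = -1) (ht : t = 1 ∨ t = -1) (hv : v = 1 ∨ v = -1) {ε : ℝ} (hε : 0 < ε) :
    ∃ N₀ : ℕ, 1 ≤ N₀ ∧ ∀ S S' S'' : Set ℤ, Invariant S → Invariant S' → Invariant S'' →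
    ∀ δ δ' δ'' : ℝ, HasDensity s S δ → HasDensity t S' δ' → HasDensity v S'' δ'' →
    ∀ N : ℕ, N₀ ≤ N → ∀ N₁ N₂ N₃ : ℕ, N₁ ≤ N → N₂ ≤ N → N₃ ≤ N → ∀ M₁ M₂ M₃ : ℕ, M₁ ≤ N₁ → M₂ ≤ N₂ → M₃ ≤ N₃ →
    ∀ a b c m : ℤ, a ≠ 0 → b ≠ 0 → c ≠ 0 →
    |(Sol a b c m (Part s M₁ N₁ S) (Part t M₂ N₂ S') (Part v M₃ N₃ S'') : ℝ)
      - δ * δ' * δ'' * Sol a b c m (Part s M₁ N₁ Set.univ) (Part t M₂ N₂ Set.univ) (Part v M₃ N₃ Set.univ)|
      ≤ ε * N ^ 2 := by
  obtain ⟨N0, hN0, H⟩ := solutions hs ht hv (show 0 < min ε 1 from lt_min hε one_pos) (min_le_right _ _)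
  refine ⟨N0, hN0, ?_⟩
  intro S S' S'' hS hS' hS'' δ δ' δ'' hδ hδ' hδ'' N hN N₁ N₂ N₃ hN1 hN2 hN3 M₁ M₂ M₃ hM1 hM2 hM3 a b c m ha hb hc
  rw [sol_eq hs ht hv S S' S'' hN1 hN2 hN3, sol_eq hs ht hv Set.univ Set.univ Set.univ hN1 hN2 hN3]
  simp only [res_univ]
  have h0 : ∀ {s : ℤ}, (s = 1 ∨ s = -1) → s ≠ 0 := by
    rintro s (rfl | rfl) <;> norm_num
  refine (H S S' S'' (inv_of hS) (inv_of hS') (inv_of hS'') δ δ' δ'' (HD_of hs hS hδ) (HD_of ht hS' hδ')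
    (HD_of hv hS'' hδ'') N hN N₁ N₂ N₃ hN1 hN2 hN3 M₁ M₂ M₃ hM1 hM2 hM3 (a * s) (b * t) (c * v) m
    (mul_ne_zero ha (h0 hs)) (mul_ne_zero hb (h0 ht)) (mul_ne_zero hc (h0 hv))).trans ?_
  exact mul_le_mul_of_nonneg_right (min_le_left _ _) (by positivity)

theorem part_finite {s : ℤ} (hs : s = 1 ∨ s = -1) (M N : ℕ) (S : Set ℤ) : (Part s M N S).Finite := by
  apply (Set.finite_Icc (-(N : ℤ)) N).subset
  rintro x ⟨-, h1, h2⟩
  rw [Set.mem_Icc]
  rcases hs with rfl | rfl <;> constructor <;> omega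

theorem sol_lower {s : ℤ} (hs : s = 1 ∨ s = -1) (a b c m : ℤ) (N K : ℕ) (φ : ℕ → ℕ → ℤ × ℤ × ℤ)
    (hinj : ∀ x y x' y', φ x y = φ x' y' → x = x' ∧ y = y')
    (h : ∀ x y : ℕ, 1 ≤ x → x ≤ K → 1 ≤ y → y ≤ K → (0 < s * (φ x y).1 ∧ s * (φ x y).1 ≤ N) ∧
      (0 < s * (φ x y).2.1 ∧ s * (φ x y).2.1 ≤ N) ∧ (0 < s * (φ x y).2.2 ∧ s * (φ x y).2.2 ≤ N) ∧
      a * (φ x y).1 + b * (φ x y).2.1 + c * (φ x y).2.2 = m) :
    K ^ 2 ≤ Sol a b c m (Part s 0 N Set.univ) (Part s 0 N Set.univ) (Part s 0 N Set.univ) := by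
  classical
  unfold Sol
  have hfin : {p : ℤ × ℤ × ℤ | p.1 ∈ Part s 0 N Set.univ ∧ p.2.1 ∈ Part s 0 N Set.univ ∧ p.2.2 ∈ Part s 0 N Set.univ ∧
      a * p.1 + b * p.2.1 + c * p.2.2 = m}.Finite := by
    apply ((part_finite hs 0 N Set.univ).prod ((part_finite hs 0 N Set.univ).prod (part_finite hs 0 N Set.univ))).subset
    rintro ⟨x, y, z⟩ ⟨h1, h2, h3, -⟩
    exact ⟨h1, h2, h3⟩
  have hsub : (((Finset.Icc 1 K ×ˢ Finset.Icc 1 K).image (fun p : ℕ × ℕ => φ p.1 p.2) : Finset (ℤ × ℤ × ℤ)) : Set (ℤ × ℤ × ℤ)) ⊆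
      {p : ℤ × ℤ × ℤ | p.1 ∈ Part s 0 N Set.univ ∧ p.2.1 ∈ Part s 0 N Set.univ ∧ p.2.2 ∈ Part s 0 N Set.univ ∧
      a * p.1 + b * p.2.1 + c * p.2.2 = m} := by
    intro q hq
    rw [Finset.coe_image, Set.mem_image] at hq
    obtain ⟨⟨x, y⟩, hxy, rfl⟩ := hq
    rw [Finset.mem_coe, Finset.mem_product, Finset.mem_Icc, Finset.mem_Icc] at hxy
    obtain ⟨h1, h2, h3, h4⟩ := h x y hxy.1.1 hxy.1.2 hxy.2.1 hxy.2.2
    exact ⟨⟨Set.mem_univ _, by exact_mod_cast h1.1, h1.2⟩, ⟨Set.mem_univ _, by exact_mod_cast h2.1, h2.2⟩,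
      ⟨Set.mem_univ _, by exact_mod_cast h3.1, h3.2⟩, h4⟩
  have h1 := Set.ncard_le_ncard hsub hfin
  rw [Set.ncard_coe_finset, Finset.card_image_of_injective, Finset.card_product, Nat.card_Icc, Nat.add_sub_cancel] at h1
  · rw [pow_two]; exact h1
  · rintro ⟨x, y⟩ ⟨x', y'⟩ hxy
    obtain ⟨h2, h3⟩ := hinj _ _ _ _ hxy
    simp only at h2 h3
    rw [h2, h3]

theorem dens_pos {s : ℤ} (hs : s = 1 ∨ s = -1) {S : Set ℤ} (hS : Invariant S) (hne : ∃ x ∈ S, 0 < s * x) :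
    ∃ δ : ℝ, 0 < δ ∧ HasDensity s S δ := by
  obtain ⟨δ, h1, h2⟩ := HD_iff hs hS
  obtain ⟨x, hx, hx0⟩ := hne
  exact ⟨δ, one_pos hs (inv_of hS) hx hx0 h1, h2⟩

theorem div_lower {N D : ℕ} (hD : 1 ≤ D) (hN : 2 * D ≤ N) : (N : ℝ) / (2 * D) ≤ ((N / D : ℕ) : ℝ) := by
  have hD0 : (0 : ℝ) < D := by exact_mod_cast hD
  rw [div_le_iff₀ (by positivity)]
  have h1 : N < D * (N / D + 1) := Nat.lt_mul_div_succ N (by omega)
  have h2 : 1 ≤ N / D := (Nat.le_div_iff_mul_le (by omega)).2 (by omega)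
  have h3 : N ≤ N / D * (2 * D) := by nlinarith
  exact_mod_cast h3

/-- many solutions of homogeneous equations -/
theorem many {s : ℤ} (hs : s = 1 ∨ s = -1) {a b c : ℕ} (ha : 0 < a) (hb : 0 < b) (hc : 0 < c) {S S' S'' : Set ℤ}
    (hS : Invariant S) (hS' : Invariant S') (hS'' : Invariant S'') (h1 : ∃ x ∈ S, 0 < s * x)
    (h2 : ∃ x ∈ S', 0 < s * x) (h3 : ∃ x ∈ S'', 0 < s * x) : ∃ κ : ℝ, 0 < κ ∧ ∃ N₀ : ℕ, ∀ N : ℕ, N₀ ≤ N →
    κ * N ^ 2 ≤ Sol a b (-c) 0 (Part s 0 N S) (Part s 0 N S') (Part s 0 N S'') := by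
  obtain ⟨δ, d0, hδ⟩ := dens_pos hs hS h1
  obtain ⟨δ', d0', hδ'⟩ := dens_pos hs hS' h2
  obtain ⟨δ'', d0'', hδ''⟩ := dens_pos hs hS'' h3
  set D : ℕ := (a + b + c) * c with hD
  have hD1 : 1 ≤ D := Nat.mul_pos (by omega) hc
  have hDR : (0 : ℝ) < D := by exact_mod_cast hD1
  set κ : ℝ := δ * δ' * δ'' / (2 * (2 * D) ^ 2) with hκ
  have hκ0 : 0 < κ := by positivity
  obtain ⟨N0, hN0, H⟩ := linear hs hs hs hκ0
  refine ⟨κ, hκ0, N0 + 2 * D, fun N hN => ?_⟩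
  have h4 := H S S' S'' hS hS' hS'' δ δ' δ'' hδ hδ' hδ'' N (by omega) N N N le_rfl le_rfl le_rfl 0 0 0
    (by omega) (by omega) (by omega) a b (-c) 0 (by omega) (by omega) (by omega)
  have h5 : (N / D) ^ 2 ≤ Sol a b (-c) 0 (Part s 0 N Set.univ) (Part s 0 N Set.univ) (Part s 0 N Set.univ) := by
    apply sol_lower hs a b (-c) 0 N (N / D) (fun x y => (s * (c * x), s * (c * y), s * (a * x + b * y)))
    · intro x y x' y' h
      simp only [Prod.mk.injEq] at h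
      have k1 := congrArg (fun x => s * x) h.1
      have k2 := congrArg (fun x => s * x) h.2.1
      simp only [s_mul hs] at k1 k2
      have hc' : (c : ℤ) ≠ 0 := by omega
      exact ⟨by exact_mod_cast mul_left_cancel₀ hc' k1, by exact_mod_cast mul_left_cancel₀ hc' k2⟩
    · intro x y hx hxK hy hyK
      simp only [s_mul hs]
      have hKD : N / D * D ≤ N := Nat.div_mul_le_self N D
      have e1 : N / D * D = (N / D) * (a * c) + (N / D) * (b * c) + (N / D) * (c * c) := by rw [hD]; ring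
      have m1 : ∀ u v : ℕ, u ≤ N / D → 0 < v → v * u ≤ (N / D) * (v * c) := by
        intro u v hu hv
        calc v * u ≤ v * (N / D) := Nat.mul_le_mul le_rfl hu
          _ ≤ v * (N / D) * c := Nat.le_mul_of_pos_right _ hc
          _ = _ := by ring
      have m2 := m1 x c hxK hc
      have m3 := m1 y c hyK hc
      have m4 := m1 x a hxK ha
      have m5 := m1 y b hyK hb
      have p1 : 0 < c * x := Nat.mul_pos hc (by omega)
      have p2 : 0 < c * y := Nat.mul_pos hc (by omega)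
      have p3 : 0 < a * x := Nat.mul_pos ha (by omega)
      refine ⟨⟨by exact_mod_cast p1, by exact_mod_cast (by omega : c * x ≤ N)⟩,
        ⟨by exact_mod_cast p2, by exact_mod_cast (by omega : c * y ≤ N)⟩,
        ⟨by exact_mod_cast (by omega : 0 < a * x + b * y), by exact_mod_cast (by omega : a * x + b * y ≤ N)⟩, by ring⟩
  have h6 := div_lower hD1 (by omega : 2 * D ≤ N)
  have h7 : ((N : ℝ) / (2 * D)) ^ 2 ≤ Sol a b (-c) 0 (Part s 0 N Set.univ) (Part s 0 N Set.univ) (Part s 0 N Set.univ) := by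
    calc ((N : ℝ) / (2 * D)) ^ 2 ≤ ((N / D : ℕ) : ℝ) ^ 2 := pow_le_pow_left₀ (by positivity) h6 2
      _ ≤ _ := by exact_mod_cast h5
  have h8 := (abs_le.1 h4).1
  have h9 := mul_le_mul_of_nonneg_left h7 (by positivity : 0 ≤ δ * δ' * δ'')
  have h10 : δ * δ' * δ'' * ((N : ℝ) / (2 * D)) ^ 2 = 2 * (κ * N ^ 2) := by
    rw [hκ]
    field_simp
  linarith

/-- sums of three -/
theorem three {s : ℤ} (hs : s = 1 ∨ s = -1) {S S' S'' : Set ℤ}
    (hS : Invariant S) (hS' : Invariant S') (hS'' : Invariant S'') (h1 : ∃ x ∈ S, 0 < s * x)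
    (h2 : ∃ x ∈ S', 0 < s * x) (h3 : ∃ x ∈ S'', 0 < s * x) : ∃ N₀ : ℕ, ∀ n : ℕ, N₀ ≤ n →
    ∃ x ∈ S, ∃ y ∈ S', ∃ z ∈ S'', 0 < s * x ∧ 0 < s * y ∧ 0 < s * z ∧ x + y + z = s * n := by
  obtain ⟨δ, d0, hδ⟩ := dens_pos hs hS h1
  obtain ⟨δ', d0', hδ'⟩ := dens_pos hs hS' h2
  obtain ⟨δ'', d0'', hδ''⟩ := dens_pos hs hS'' h3
  set κ : ℝ := δ * δ' * δ'' / (2 * (2 * 3) ^ 2) with hκ
  have hκ0 : 0 < κ := by positivity
  obtain ⟨N0, hN0, H⟩ := linear hs hs hs hκ0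
  refine ⟨N0 + 6, fun N hN => ?_⟩
  have h4 := H S S' S'' hS hS' hS'' δ δ' δ'' hδ hδ' hδ'' N (by omega) N N N le_rfl le_rfl le_rfl 0 0 0
    (by omega) (by omega) (by omega) 1 1 1 (s * N) (by omega) (by omega) (by omega)
  have h5 : (N / 3) ^ 2 ≤ Sol 1 1 1 (s * N) (Part s 0 N Set.univ) (Part s 0 N Set.univ) (Part s 0 N Set.univ) := by
    apply sol_lower hs 1 1 1 (s * N) N (N / 3) (fun x y => (s * x, s * y, s * (N - x - y)))
    · intro x y x' y' h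
      simp only [Prod.mk.injEq] at h
      have k1 := congrArg (fun x => s * x) h.1
      have k2 := congrArg (fun x => s * x) h.2.1
      simp only [s_mul hs] at k1 k2
      exact ⟨by exact_mod_cast k1, by exact_mod_cast k2⟩
    · intro x y hx hxK hy hyK
      simp only [s_mul hs]
      refine ⟨⟨by omega, by omega⟩, ⟨by omega, by omega⟩, ⟨by omega, by omega⟩, by ring⟩
  have h6 := div_lower (by norm_num : 1 ≤ 3) (by omega : 2 * 3 ≤ N)
  have h7 : ((N : ℝ) / (2 * 3)) ^ 2 ≤ Sol 1 1 1 (s * N) (Part s 0 N Set.univ) (Part s 0 N Set.univ) (Part s 0 N Set.univ) := by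
    calc ((N : ℝ) / (2 * 3)) ^ 2 ≤ ((N / 3 : ℕ) : ℝ) ^ 2 := pow_le_pow_left₀ (by positivity) (by exact_mod_cast h6) 2
      _ ≤ _ := by exact_mod_cast h5
  have h8 := (abs_le.1 h4).1
  have h9 := mul_le_mul_of_nonneg_left h7 (by positivity : 0 ≤ δ * δ' * δ'')
  have h10 : δ * δ' * δ'' * ((N : ℝ) / (2 * 3)) ^ 2 = 2 * (κ * N ^ 2) := by
    rw [hκ]
    field_simp
  have hNp : (0 : ℝ) < N := by exact_mod_cast (by omega : 0 < N)
  have h11 : 0 < κ * (N : ℝ) ^ 2 := by positivity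
  have h12 : (0 : ℝ) < Sol 1 1 1 (s * N) (Part s 0 N S) (Part s 0 N S') (Part s 0 N S'') := by linarith
  have h13 : {p : ℤ × ℤ × ℤ | p.1 ∈ Part s 0 N S ∧ p.2.1 ∈ Part s 0 N S' ∧ p.2.2 ∈ Part s 0 N S'' ∧
      1 * p.1 + 1 * p.2.1 + 1 * p.2.2 = s * N}.Nonempty := by
    apply Set.nonempty_of_ncard_ne_zero
    exact_mod_cast h12.ne'
  obtain ⟨⟨x, y, z⟩, ⟨hx, hx0, -⟩, ⟨hy, hy0, -⟩, ⟨hz, hz0, -⟩, hsum⟩ := h13
  refine ⟨x, hx, y, hy, z, hz, by exact_mod_cast hx0, by exact_mod_cast hy0, by exact_mod_cast hz0, ?_⟩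
  simp only [one_mul] at hsum
  exact hsum

theorem reduction {s : ℤ} (hs : s = 1 ∨ s = -1) {a b c : ℕ} (ha : 0 < a) (hb : 0 < b) (hc : 0 < c) {ψ : ℕ → ℝ}
    (hψ : Tendsto ψ atTop (𝓝 0)) (S : Set ℤ) (hS : Invariant S)
    (h : ∃ᶠ N : ℕ in atTop, (Sol a b (-c) 0 (Part s 0 N Sᶜ) (Part s 0 N Sᶜ) (Part s 0 N Sᶜ) : ℝ) ≤ ψ N * N ^ 2) :
    ∀ x : ℤ, 0 < s * x → x ∈ S := by
  intro x hx
  by_contra hcon
  have hSc : Invariant Sᶜ := fun x => not_congr (hS x)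
  obtain ⟨κ, hκ, N0, hN0⟩ := many hs ha hb hc hSc hSc hSc ⟨x, hcon, hx⟩ ⟨x, hcon, hx⟩ ⟨x, hcon, hx⟩
  have h1 : ∀ᶠ N : ℕ in atTop, ψ N < κ := (tendsto_order.1 hψ).2 κ hκ
  obtain ⟨N, h2, h3, h4⟩ := (h.and_eventually (h1.and (eventually_ge_atTop (N0 + 1)))).exists
  have h5 := hN0 N (by omega)
  have hNp : (0 : ℝ) < N := by exact_mod_cast (by omega : 0 < N)
  have h6 : ψ N * (N : ℝ) ^ 2 < κ * N ^ 2 := mul_lt_mul_of_pos_right h3 (by positivity)
  linarith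

/-- (1) Every bounded function `F` that has the same value at integers whose trajectories under the
shortcut map are at some time at the same point is orthogonal to the exponential functions whose
frequency is not within `K / N` of an integer, uniformly in `F` and the frequency.
(2) The indicator function of every invariant set minus its density is orthogonal to all exponential
functions, uniformly in the invariant set and in the frequency.
(3) For all but `ε N` of the `n ≤ N` the number of ways to write `n` as a sum of an element of one and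
an element of another invariant set is `n` times the product of the densities up to `ε N`, and for
all but `ε N` of the shifts `h ≤ N` the number of the `x ≤ N` in one invariant set for which `x + h` is
in another is `N` times the product of the densities up to `ε N`.
(4) Every large integer is a sum of three elements of three given nonempty invariant sets, and
`a x + b y = c z` has at least `κ N ^ 2` solutions in `[1, N]` with `x`, `y`, `z` in the three sets.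
(5) If for infinitely many `N` all but `o(N ^ 2)` of the solutions of `a x + b y = c z` in `[1, N]`
contain an element of the invariant set `S`, then `S` contains all positive integers.
(All this for the negative integers too.)
(6) For nonzero integers `a`, `b`, `c` and every `m` the number of the solutions of
`a x + b y + c z = m` with `x`, `y`, `z` in three invariant sets and in given intervals in `[1, N]`
(or `[-N, -1]`) is the number of all solutions in these intervals, times the product of the three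
densities, up to `ε N ^ 2`, uniformly in the sets, the intervals, the coefficients and `m`.
(7) If the hypothesis of (5) holds for the set of the integers whose trajectories reach the known
cycles, for both signs, then all integers reach the known cycles. -/
theorem result :
    (∀ s : ℤ, (s = 1 ∨ s = -1) →
      (∀ ε : ℝ, 0 < ε → ∃ (K : ℝ) (N₀ : ℕ), ∀ N : ℕ, N₀ ≤ N → ∀ α : ℝ, (∀ k : ℤ, K ≤ |α - k| * N) →
        ∀ F : ℤ → ℝ, Synchronous F → ‖∑ n ∈ Finset.Icc 1 N, (F (s * n) : ℂ) * e (α * n)‖ ≤ ε * N) ∧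
      (∀ ε : ℝ, 0 < ε → ∃ N₀ : ℕ, ∀ S : Set ℤ, Invariant S → ∃ δ : ℝ, HasDensity s S δ ∧
        ∀ N : ℕ, N₀ ≤ N → ∀ α : ℝ,
          ‖∑ n ∈ Finset.Icc 1 N, ((S.indicator (fun _ => (1 : ℝ)) (s * n) - δ : ℝ) : ℂ) * e (α * n)‖ ≤ ε * N) ∧
      (∀ ε : ℝ, 0 < ε → ∃ N₀ : ℕ, ∀ S S' : Set ℤ, Invariant S → Invariant S' →
        ∃ δ δ' : ℝ, HasDensity s S δ ∧ HasDensity s S' δ' ∧ ∀ N : ℕ, N₀ ≤ N →
          ({n : ℕ | 1 ≤ n ∧ n ≤ N ∧ ε * N < |(Rep s n S S' : ℝ) - δ * δ' * n|}.ncard : ℝ) ≤ ε * N ∧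
          ({h : ℕ | 1 ≤ h ∧ h ≤ N ∧ ε * N < |(Corr s N h S S' : ℝ) - δ * δ' * N|}.ncard : ℝ) ≤ ε * N) ∧
      (∀ S S' S'' : Set ℤ, Invariant S → Invariant S' → Invariant S'' → (∃ x ∈ S, 0 < s * x) →
        (∃ x ∈ S', 0 < s * x) → (∃ x ∈ S'', 0 < s * x) →
        (∃ N₀ : ℕ, ∀ n : ℕ, N₀ ≤ n → ∃ x ∈ S, ∃ y ∈ S', ∃ z ∈ S'', 0 < s * x ∧ 0 < s * y ∧ 0 < s * z ∧
          x + y + z = s * n) ∧
        (∀ a b c : ℕ, 0 < a → 0 < b → 0 < c → ∃ κ : ℝ, 0 < κ ∧ ∃ N₀ : ℕ, ∀ N : ℕ, N₀ ≤ N →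
          κ * N ^ 2 ≤ Sol a b (-c) 0 (Part s 0 N S) (Part s 0 N S') (Part s 0 N S''))) ∧
      (∀ (a b c : ℕ), 0 < a → 0 < b → 0 < c → ∀ ψ : ℕ → ℝ, Tendsto ψ atTop (𝓝 0) → ∀ S : Set ℤ, Invariant S →
        (∃ᶠ N : ℕ in atTop, (Sol a b (-c) 0 (Part s 0 N Sᶜ) (Part s 0 N Sᶜ) (Part s 0 N Sᶜ) : ℝ) ≤ ψ N * N ^ 2) →
        ∀ x : ℤ, 0 < s * x → x ∈ S)) ∧
    (∀ s t v : ℤ, (s = 1 ∨ s = -1) → (t = 1 ∨ t = -1) → (v = 1 ∨ v = -1) → ∀ ε : ℝ, 0 < ε → ∃ N₀ : ℕ,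
      ∀ S S' S'' : Set ℤ, Invariant S → Invariant S' → Invariant S'' →
        ∃ δ δ' δ'' : ℝ, HasDensity s S δ ∧ HasDensity t S' δ' ∧ HasDensity v S'' δ'' ∧
        ∀ N : ℕ, N₀ ≤ N → ∀ N₁ N₂ N₃ : ℕ, N₁ ≤ N → N₂ ≤ N → N₃ ≤ N →
        ∀ M₁ M₂ M₃ : ℕ, M₁ ≤ N₁ → M₂ ≤ N₂ → M₃ ≤ N₃ → ∀ a b c m : ℤ, a ≠ 0 → b ≠ 0 → c ≠ 0 →
        |(Sol a b c m (Part s M₁ N₁ S) (Part t M₂ N₂ S') (Part v M₃ N₃ S'') : ℝ)
          - δ * δ' * δ'' * Sol a b c m (Part s M₁ N₁ Set.univ) (Part t M₂ N₂ Set.univ) (Part v M₃ N₃ Set.univ)|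
          ≤ ε * N ^ 2) ∧
    (∀ (a b c : ℕ), 0 < a → 0 < b → 0 < c → ∀ ψ : ℕ → ℝ, Tendsto ψ atTop (𝓝 0) →
      (∀ s : ℤ, (s = 1 ∨ s = -1) → ∃ᶠ N : ℕ in atTop, (Sol a b (-c) 0 (Part s 0 N {x | ¬ Reaches x})
        (Part s 0 N {x | ¬ Reaches x}) (Part s 0 N {x | ¬ Reaches x}) : ℝ) ≤ ψ N * N ^ 2) →
      ∀ x : ℤ, Reaches x) := by
  refine ⟨fun s hs => ⟨?_, ?_, ?_, ?_, ?_⟩, ?_, ?_⟩
  · intro ε hε
    have hodd : Odd s := by rcases hs with rfl | rfl <;> decide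
    have hco : IsCoprime s 3 := by
      rcases hs with rfl | rfl
      · exact isCoprime_one_left
      · exact (isCoprime_one_left).neg_left
    have hss : s * s = 1 := by rcases hs with rfl | rfl <;> norm_num
    obtain ⟨K, hK, N1, hN1, h1⟩ := fourier hodd hco hss (show 0 < min ε 1 from lt_min hε one_pos) (min_le_right _ _)
    refine ⟨K, N1, fun N hN α hα F hF => ?_⟩
    have h2 := h1 N hN α (hα (round α)) _ (synchronous_same hs hF)
    rw [← sum_EE] at h2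
    refine h2.trans ?_
    exact mul_le_mul_of_nonneg_right (min_le_left _ _) (Nat.cast_nonneg _)
  · intro ε hε
    obtain ⟨N0, hN0, h1⟩ := fourier_inv hs (show 0 < min ε 1 from lt_min hε one_pos) (min_le_right _ _)
    refine ⟨N0, fun S hS => ?_⟩
    obtain ⟨δ, hδ, hδ'⟩ := HD_iff hs hS
    refine ⟨δ, hδ', fun N hN α => ?_⟩
    have h2 := h1 S (inv_of hS) δ hδ N hN α
    rw [← sum_EE] at h2
    have e1 : ∑ n ∈ Finset.Icc 1 N, ((S.indicator (fun _ => (1 : ℝ)) (s * n) - δ : ℝ) : ℂ) * e (α * n) =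
        ∑ n ∈ Finset.Icc 1 N, (bal s S δ (n : ℕ) : ℂ) * e (α * n) := by
      apply Finset.sum_congr rfl
      intro n _
      unfold bal ind
      by_cases h : s * (n : ℤ) ∈ S
      · rw [Set.indicator_of_mem h, if_pos h]
      · rw [Set.indicator_of_notMem h, if_neg h]
    rw [e1]
    refine h2.trans ?_
    exact mul_le_mul_of_nonneg_right (min_le_left _ _) (Nat.cast_nonneg _)
  · intro ε hε
    obtain ⟨N0, hN0, h1⟩ := two_sum hs (show 0 < min ε 1 from lt_min hε one_pos) (min_le_right _ _)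
    obtain ⟨N1, hN1, h1'⟩ := shifts hs (show 0 < min ε 1 from lt_min hε one_pos) (min_le_right _ _)
    refine ⟨N0 + N1, fun S S' hS hS' => ?_⟩
    obtain ⟨δ, hδ, h2⟩ := HD_iff hs hS
    obtain ⟨δ', hδ', h2'⟩ := HD_iff hs hS'
    refine ⟨δ, δ', h2, h2', fun N hN => ⟨?_, ?_⟩⟩
    · have h3 := h1 S S' (inv_of hS) (inv_of hS') δ δ' hδ hδ' N (by omega)
      have hN' : (0 : ℝ) ≤ N := Nat.cast_nonneg _
      refine le_trans ?_ (h3.trans (mul_le_mul_of_nonneg_right (min_le_left _ _) hN'))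
      norm_cast
      apply Set.ncard_le_ncard
      · rintro n ⟨a1, a2, a3⟩
        refine ⟨a1, a2, lt_of_le_of_lt ?_ a3⟩
        exact mul_le_mul_of_nonneg_right (min_le_left _ _) hN'
      · apply (Set.finite_Icc 1 N).subset
        rintro n ⟨a1, a2, -⟩
        exact ⟨a1, a2⟩
    · have h3 := h1' S S' (inv_of hS) (inv_of hS') δ δ' hδ hδ' N (by omega)
      have hN' : (0 : ℝ) ≤ N := Nat.cast_nonneg _
      refine le_trans ?_ (h3.trans (mul_le_mul_of_nonneg_right (min_le_left _ _) hN'))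
      norm_cast
      apply Set.ncard_le_ncard
      · rintro n ⟨a1, a2, a3⟩
        refine ⟨a1, a2, lt_of_le_of_lt ?_ a3⟩
        exact mul_le_mul_of_nonneg_right (min_le_left _ _) hN'
      · apply (Set.finite_Icc 1 N).subset
        rintro n ⟨a1, a2, -⟩
        exact ⟨a1, a2⟩
  · intro S S' S'' hS hS' hS'' h1 h2 h3
    exact ⟨three hs hS hS' hS'' h1 h2 h3, fun a b c ha hb hc => many hs ha hb hc hS hS' hS'' h1 h2 h3⟩
  · intro a b c ha hb hc ψ hψ S hS h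
    exact reduction hs ha hb hc hψ S hS h
  · intro s t v hs ht hv ε hε
    obtain ⟨N0, hN0, H⟩ := linear hs ht hv hε
    refine ⟨N0, fun S S' S'' hS hS' hS'' => ?_⟩
    obtain ⟨δ, -, h2⟩ := HD_iff hs hS
    obtain ⟨δ', -, h2'⟩ := HD_iff ht hS'
    obtain ⟨δ'', -, h2''⟩ := HD_iff hv hS''
    exact ⟨δ, δ', δ'', h2, h2', h2'', H S S' S'' hS hS' hS'' δ δ' δ'' h2 h2' h2''⟩
  · intro a b c ha hb hc ψ hψ h x
    have key : ∀ s : ℤ, (s = 1 ∨ s = -1) → ∀ x : ℤ, 0 < s * x → Reaches x := by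
      intro s hs x hx
      have := reduction hs ha hb hc hψ {x | Reaches x} reaches_inv (h s hs) x hx
      exact this
    rcases lt_trichotomy x 0 with hx | hx | hx
    · exact key (-1) (Or.inr rfl) x (by omega)
    · rw [hx]; exact ⟨0, by decide⟩
    · exact key 1 (Or.inl rfl) x (by omega)

end Pool.Agent.Results.MP_d02c56_nt.FourierUniformity
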