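import Pool.Agent.W41.MU24

set_option autoImplicit false

/-!
The sets invariant under the Collatz map are orthogonal to all bounded multiplicative functions
twisted by linear phases.

The indicator function of an invariant set, minus its density, has small correlation with
`g n * exp (2 π i α n)` for every multiplicative function `g` with values in the unit disc (among them
the Liouville and Möbius functions, all Dirichlet characters, `n ^ (i t)`, `exp (i t f n)` with `f`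
additive, and indicator functions like that of the squarefree numbers) and every real `α`,
uniformly in the set, in `g` and in `α`. So the invariant sets (for example the merging classes, or
the set of the integers that reach a given cycle) are equidistributed among all the classes that are
given by multiplicative conditions, values of additive functions and congruences.
-/

namespace Pool.Agent.Results.MP_d02c56_nt.MultiplicativeOrthogonality

open Filter Topology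

/-- The Collatz map on the integers. -/
def C (x : ℤ) : ℤ := if x % 2 = 0 then x / 2 else 3 * x + 1

/-- `S` is invariant under the Collatz map and its inverse. -/
def Invariant (S : Set ℤ) : Prop := ∀ x : ℤ, x ∈ S ↔ C x ∈ S

/-- Among the integers of sign `s` the set `S` has natural density `δ`. -/
def HasDensity (s : ℤ) (S : Set ℤ) (δ : ℝ) : Prop :=
  Tendsto (fun N : ℕ => ({n : ℤ | 0 < s * n ∧ s * n ≤ N ∧ n ∈ S}.ncard : ℝ) / N) atTop (𝓝 δ)

/-- `exp (2 π i θ)` -/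
noncomputable def e (θ : ℝ) : ℂ := Complex.exp (2 * Real.pi * θ * Complex.I)

/-- A multiplicative function with values in the closed unit disc. -/
def Multiplicative (g : ℕ → ℂ) : Prop :=
  (∀ n, ‖g n‖ ≤ 1) ∧ ∀ m n : ℕ, Nat.Coprime m n → g (m * n) = g m * g n

/-- `E` is a set of the form `{n ∈ D : h n = a, n ≡ b (mod r)}` with a set `D` whose indicator function
is multiplicative and an additive function `h` with values in a finite abelian group. -/
def Arithmetic (E : Set ℕ) : Prop :=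
  ∃ (G : Type) (_ : AddCommGroup G) (_ : Finite G) (D : Set ℕ) (h : ℕ → G) (a : G) (r b : ℕ),
    (∀ m n : ℕ, Nat.Coprime m n → (m * n ∈ D ↔ m ∈ D ∧ n ∈ D)) ∧
    (∀ m n : ℕ, Nat.Coprime m n → h (m * n) = h m + h n) ∧ 1 ≤ r ∧
    ∀ n : ℕ, n ∈ E ↔ n ∈ D ∧ h n = a ∧ n % r = b % r

/-- The elements `x` of `S` of sign `s` with `|x| ∈ E` and `M < |x| ≤ N`. -/
def Part (s : ℤ) (M N : ℕ) (S : Set ℤ) (E : Set ℕ) : Set ℤ :=
  {x : ℤ | x ∈ S ∧ x.natAbs ∈ E ∧ (M : ℤ) < s * x ∧ s * x ≤ N}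

/-- The number of solutions of `a x + b y + c z = m` with `x ∈ X`, `y ∈ Y`, `z ∈ Z`. -/
noncomputable def Sol (a b c m : ℤ) (X Y Z : Set ℤ) : ℕ :=
  {p : ℤ × ℤ × ℤ | p.1 ∈ X ∧ p.2.1 ∈ Y ∧ p.2.2 ∈ Z ∧ a * p.1 + b * p.2.1 + c * p.2.2 = m}.ncard

/-- The number of the `n ≤ N` in `E` with `s n ∈ S`. -/
noncomputable def Count (s : ℤ) (N : ℕ) (S : Set ℤ) (E : Set ℕ) : ℕ :=
  {n : ℕ | 1 ≤ n ∧ n ≤ N ∧ n ∈ E ∧ s * n ∈ S}.ncard

/-- The number of the `n ≤ N` in `E` with `n + h ∈ E'`, `s n ∈ S` and `s (n + h) ∈ S'`. -/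
noncomputable def Corr (s : ℤ) (N h : ℕ) (S S' : Set ℤ) (E E' : Set ℕ) : ℕ :=
  {n : ℕ | 1 ≤ n ∧ n ≤ N ∧ n ∈ E ∧ n + h ∈ E' ∧ s * n ∈ S ∧ s * (n + h) ∈ S'}.ncard

/-- The union of the five known cycles. -/
def Known : Finset ℤ := {1, 4, 2, -1, -2, -5, -14, -7, -20, -10, -17, -50, -25, -74, -37, -110,
  -55, -164, -82, -41, -122, -61, -182, -91, -272, -136, -68, -34, 0}

/-- The trajectory of `x` reaches one of the five known cycles. -/
def Reaches (x : ℤ) : Prop := ∃ k : ℕ, C^[k] x ∈ Known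

theorem known_closed : ∀ x ∈ Known, C x ∈ Known := by decide

theorem reaches_inv : Invariant {x | Reaches x} := by
  intro x
  constructor
  · rintro ⟨k, hk⟩
    cases k with
    | zero => exact ⟨0, known_closed x hk⟩
    | succ k => exact ⟨k, by rw [Function.iterate_succ_apply] at hk; exact hk⟩
  · rintro ⟨k, hk⟩
    exact ⟨k + 1, by rw [Function.iterate_succ_apply]; exact hk⟩

open Pool.Agent.W41 Pool.Agent.H499R2.ND Pool.Agent.H499R2.CO Pool.Agent.W41.FU Pool.Agent.W41.MU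

theorem inv_of {S : Set ℤ} (hS : Invariant S) : Inv 1 S := by
  intro x
  have e : Td 1 x = C x ∨ Td 1 x = C (C x) := by
    unfold Td C
    by_cases h : x % 2 = 0
    · left; simp [h]
    · right
      have h2 : (3 * x + 1) % 2 = 0 := by omega
      simp [h, h2]
  rcases e with h | h
  · rw [h]; exact hS x
  · rw [h]; exact (hS x).trans (hS (C x))

theorem HD_iff {s : ℤ} (hs : s = 1 ∨ s = -1) {S : Set ℤ} (hS : Invariant S) :
    ∃ δ : ℝ, HD s S δ ∧ HasDensity s S δ := by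
  obtain ⟨δ, -, -, h⟩ := dens_side (d := 1) odd_one (by norm_num) hs (inv_of hS)
  exact ⟨δ, h, HD_ncard hs h⟩

theorem ind_eq (s : ℤ) (S : Set ℤ) (δ : ℝ) (x : ℤ) : S.indicator (fun _ => (1 : ℝ)) (s * x) - δ = bal s S δ x := by
  unfold bal ind
  by_cases h : s * x ∈ S
  · rw [Set.indicator_of_mem h, if_pos h]
  · rw [Set.indicator_of_notMem h, if_neg h]

/-- the orthogonality -/
theorem orth {s : ℤ} (hs : s = 1 ∨ s = -1) {ε : ℝ} (hε : 0 < ε) :
    ∃ N₀ : ℕ, ∀ S : Set ℤ, Invariant S → ∃ δ : ℝ, HasDensity s S δ ∧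
      ∀ N : ℕ, N₀ ≤ N → ∀ g : ℕ → ℂ, Multiplicative g → ∀ α : ℝ,
        ‖∑ n ∈ Finset.Icc 1 N, ((S.indicator (fun _ => (1 : ℝ)) (s * n) - δ : ℝ) : ℂ) * g n * e (α * n)‖ ≤ ε * N := by
  obtain ⟨N0, hN0, H⟩ := joint hs (show 0 < min ε 1 from lt_min hε one_pos) (min_le_right _ _)
  refine ⟨N0, fun S hS => ?_⟩
  obtain ⟨δ, hδ, hδ'⟩ := HD_iff hs hS
  refine ⟨δ, hδ', fun N hN g hg α => ?_⟩
  have h1 := H S (inv_of hS) δ hδ N hN (2 * Real.pi * α) g hg
  have e1 : ∑ n ∈ Finset.Icc 1 N, ((S.indicator (fun _ => (1 : ℝ)) (s * n) - δ : ℝ) : ℂ) * g n * e (α * n)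
      = ∑ n ∈ Finset.Icc 1 N, tw (bal s S δ) (2 * Real.pi * α) (n : ℤ) * g n := by
    apply Finset.sum_congr rfl
    intro n _
    rw [ind_eq]
    unfold tw e
    have e2 : (2 * (Real.pi : ℂ) * ((α * n : ℝ) : ℂ) * Complex.I) = ((2 * Real.pi * α * ((n : ℤ) : ℝ) : ℝ) : ℂ) * Complex.I := by
      push_cast; ring
    rw [e2]
    ring
  rw [e1]
  exact h1.trans (mul_le_mul_of_nonneg_right (min_le_left _ _) (Nat.cast_nonneg _))

theorem ee_zero' (x : ℤ) : ee 0 x = 1 := by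
  unfold ee
  simp

/-- the counting form -/
theorem count {s : ℤ} (hs : s = 1 ∨ s = -1) {ε : ℝ} (hε : 0 < ε) :
    ∃ N₀ : ℕ, ∀ S : Set ℤ, Invariant S → ∃ δ : ℝ, HasDensity s S δ ∧
      ∀ N : ℕ, N₀ ≤ N → ∀ E : Set ℕ, Arithmetic E →
        |(Count s N S E : ℝ) - δ * Count s N Set.univ E| ≤ ε * N := by
  classical
  obtain ⟨N0, hN0, H⟩ := classesE hs (show 0 < min ε 1 from lt_min hε one_pos) (min_le_right _ _)
  refine ⟨N0, fun S hS => ?_⟩
  obtain ⟨δ, hδ, hδ'⟩ := HD_iff hs hS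
  refine ⟨δ, hδ', fun N hN E hE => ?_⟩
  have h1 := H S (inv_of hS) δ hδ E hE N hN 0
  have e0 : ∀ T : Set ℤ, (Count s N T E : ℝ) = ∑ n ∈ Finset.Icc 1 N, ind s T (n : ℕ) * ie E (n : ℕ) := by
    intro T
    have e1 : {n : ℕ | 1 ≤ n ∧ n ≤ N ∧ n ∈ E ∧ s * n ∈ T} =
        ((Finset.Icc 1 N).filter (fun n : ℕ => n ∈ E ∧ s * (n : ℤ) ∈ T) : Finset ℕ) := by
      ext n
      simp only [Set.mem_ofPred_eq, Finset.coe_filter, Finset.mem_Icc]
      tauto
    unfold Count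
    rw [e1, Set.ncard_coe_finset, Finset.card_filter]
    push_cast
    apply Finset.sum_congr rfl; intro n _
    unfold ind ie
    rw [Int.toNat_natCast]
    by_cases h1 : n ∈ E <;> by_cases h2 : s * (n : ℤ) ∈ T <;> simp [h1, h2]
  have e2 : EE (fun x => bal s S δ x * ie E x) N 0 = (((Count s N S E : ℝ) - δ * Count s N Set.univ E : ℝ) : ℂ) := by
    rw [e0, e0, Finset.mul_sum, ← Finset.sum_sub_distrib]
    unfold EE
    rw [Complex.ofReal_sum]
    apply Finset.sum_congr rfl; intro n _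
    rw [ee_zero', mul_one]
    congr 1
    have : ind s Set.univ (n : ℕ) = 1 := by unfold ind; simp
    rw [this]
    unfold bal
    ring
  rw [e2, Complex.norm_real, Real.norm_eq_abs] at h1
  exact h1.trans (mul_le_mul_of_nonneg_right (min_le_left _ _) (Nat.cast_nonneg _))

theorem sol_eq {s t v : ℤ} (hs : s = 1 ∨ s = -1) (ht : t = 1 ∨ t = -1) (hv : v = 1 ∨ v = -1) (S S' S'' : Set ℤ)
    (E E' E'' : Set ℕ)
    {X M₁ M₂ M₃ N₁ N₂ N₃ : ℕ} (h1 : N₁ ≤ X) (h2 : N₂ ≤ X) (h3 : N₃ ≤ X) (a b c m : ℤ) :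
    (Sol a b c m (Part s M₁ N₁ S E) (Part t M₂ N₂ S' E') (Part v M₃ N₃ S'' E'') : ℝ) =
      TT (res M₁ N₁ (fun x => ind s S x * ie E x)) (res M₂ N₂ (fun x => ind t S' x * ie E' x))
        (res M₃ N₃ (fun x => ind v S'' x * ie E'' x)) X (a * s) (b * t) (c * v) m := by
  have hres : ∀ (M N : ℕ) (s : ℤ) (S : Set ℤ) (E : Set ℕ) (x : ℤ), res M N (fun x => ind s S x * ie E x) x =
      @ite ℝ (((M : ℤ) < x ∧ x ≤ N) ∧ s * x ∈ S ∧ x.toNat ∈ E) (Classical.propDecidable _) 1 0 := by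
    intro M N s S E x
    unfold res ind ie
    by_cases h1 : (M : ℤ) < x ∧ x ≤ N <;> by_cases h2 : s * x ∈ S <;> by_cases h3 : x.toNat ∈ E <;> simp [h1, h2, h3]
  rw [TT_count (P := fun x => ((M₁ : ℤ) < x ∧ x ≤ N₁) ∧ s * x ∈ S ∧ x.toNat ∈ E)
    (Q := fun x => ((M₂ : ℤ) < x ∧ x ≤ N₂) ∧ t * x ∈ S' ∧ x.toNat ∈ E')
    (R := fun x => ((M₃ : ℤ) < x ∧ x ≤ N₃) ∧ v * x ∈ S'' ∧ x.toNat ∈ E'') (hres M₁ N₁ s S E) (hres M₂ N₂ t S' E')
    (hres M₃ N₃ v S'' E'')
    (fun x hx => by omega) (fun x hx => by omega) (fun x hx => by omega)]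
  unfold Sol
  congr 1
  have hnat : ∀ {s : ℤ}, (s = 1 ∨ s = -1) → ∀ x : ℤ, 0 < x → (s * x).natAbs = x.toNat := by
    rintro s (rfl | rfl) x hx <;> omega
  have hnat' : ∀ {s : ℤ}, (s = 1 ∨ s = -1) → ∀ x : ℤ, 0 < s * x → (s * x).toNat = x.natAbs := by
    rintro s (rfl | rfl) x hx <;> omega
  have e1 : {p : ℤ × ℤ × ℤ | p.1 ∈ Part s M₁ N₁ S E ∧ p.2.1 ∈ Part t M₂ N₂ S' E' ∧ p.2.2 ∈ Part v M₃ N₃ S'' E'' ∧
      a * p.1 + b * p.2.1 + c * p.2.2 = m} =
      (fun p : ℤ × ℤ × ℤ => (s * p.1, t * p.2.1, v * p.2.2)) '' {p : ℤ × ℤ × ℤ |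
        (((M₁ : ℤ) < p.1 ∧ p.1 ≤ N₁) ∧ s * p.1 ∈ S ∧ p.1.toNat ∈ E) ∧
        (((M₂ : ℤ) < p.2.1 ∧ p.2.1 ≤ N₂) ∧ t * p.2.1 ∈ S' ∧ p.2.1.toNat ∈ E') ∧
        (((M₃ : ℤ) < p.2.2 ∧ p.2.2 ≤ N₃) ∧ v * p.2.2 ∈ S'' ∧ p.2.2.toNat ∈ E'') ∧
        a * s * p.1 + b * t * p.2.1 + c * v * p.2.2 = m} := by
    ext ⟨x, y, z⟩
    simp only [Set.mem_ofPred_eq, Set.mem_image, Prod.mk.injEq, Prod.exists, Part]
    constructor
    · rintro ⟨⟨a1, a0, a2, a3⟩, ⟨b1, b0, b2, b3⟩, ⟨c1, c0, c2, c3⟩, h⟩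
      refine ⟨s * x, t * y, v * z, ⟨⟨⟨a2, a3⟩, ?_, ?_⟩, ⟨⟨b2, b3⟩, ?_, ?_⟩, ⟨⟨c2, c3⟩, ?_, ?_⟩, ?_⟩, s_mul hs x, s_mul ht y, s_mul hv z⟩
      · rwa [s_mul hs]
      · rwa [hnat' hs x (by omega)]
      · rwa [s_mul ht]
      · rwa [hnat' ht y (by omega)]
      · rwa [s_mul hv]
      · rwa [hnat' hv z (by omega)]
      · rw [mul_assoc, s_mul hs, mul_assoc, s_mul ht, mul_assoc, s_mul hv]
        exact h
    · rintro ⟨x', y', z', ⟨⟨⟨a2, a3⟩, a1, a0⟩, ⟨⟨b2, b3⟩, b1, b0⟩, ⟨⟨c2, c3⟩, c1, c0⟩, h⟩, rfl, rfl, rfl⟩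
      rw [s_mul hs, s_mul ht, s_mul hv, hnat hs x' (by omega), hnat ht y' (by omega), hnat hv z' (by omega)]
      refine ⟨⟨a1, a0, a2, a3⟩, ⟨b1, b0, b2, b3⟩, ⟨c1, c0, c2, c3⟩, ?_⟩
      rw [← mul_assoc, ← mul_assoc, ← mul_assoc]
      exact h
  rw [e1, Set.ncard_image_of_injective]
  rintro ⟨x, y, z⟩ ⟨x', y', z'⟩ h
  simp only [Prod.mk.injEq] at h
  obtain ⟨h1, h2, h3⟩ := h
  have k1 := congrArg (fun x => s * x) h1
  have k2 := congrArg (fun x => t * x) h2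
  have k3 := congrArg (fun x => v * x) h3
  simp only [s_mul hs, s_mul ht, s_mul hv] at k1 k2 k3
  rw [k1, k2, k3]

theorem res_univ (M N : ℕ) (s : ℤ) (E : Set ℕ) : res M N (fun x => ind s Set.univ x * ie E x) = res M N (ie E) := by
  ext x
  unfold res ind
  simp

/-- linear equations in three invariant sets -/
theorem linear {s t v : ℤ} (hs : s = 1 ∨ s = -1) (ht : t = 1 ∨ t = -1) (hv : v = 1 ∨ v = -1) {ε : ℝ} (hε : 0 < ε) :
    ∃ N₀ : ℕ, ∀ S S' S'' : Set ℤ, Invariant S → Invariant S' → Invariant S'' →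
    ∃ δ δ' δ'' : ℝ, HasDensity s S δ ∧ HasDensity t S' δ' ∧ HasDensity v S'' δ'' ∧
    ∀ E E' E'' : Set ℕ, Arithmetic E → Arithmetic E' → Arithmetic E'' →
    ∀ N : ℕ, N₀ ≤ N → ∀ N₁ N₂ N₃ : ℕ, N₁ ≤ N → N₂ ≤ N → N₃ ≤ N → ∀ M₁ M₂ M₃ : ℕ, M₁ ≤ N₁ → M₂ ≤ N₂ → M₃ ≤ N₃ →
    ∀ a b c m : ℤ, a ≠ 0 → b ≠ 0 → c ≠ 0 →
    |(Sol a b c m (Part s M₁ N₁ S E) (Part t M₂ N₂ S' E') (Part v M₃ N₃ S'' E'') : ℝ)
      - δ * δ' * δ'' * Sol a b c m (Part s M₁ N₁ Set.univ E) (Part t M₂ N₂ Set.univ E') (Part v M₃ N₃ Set.univ E'')|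
      ≤ ε * N ^ 2 := by
  obtain ⟨N0, hN0, H⟩ := solutionsE hs ht hv (show 0 < min ε 1 from lt_min hε one_pos) (min_le_right _ _)
  refine ⟨N0, ?_⟩
  intro S S' S'' hS hS' hS''
  obtain ⟨δ, hδ, d1⟩ := HD_iff hs hS
  obtain ⟨δ', hδ', d2⟩ := HD_iff ht hS'
  obtain ⟨δ'', hδ'', d3⟩ := HD_iff hv hS''
  refine ⟨δ, δ', δ'', d1, d2, d3, ?_⟩
  intro E E' E'' hE hE' hE'' N hN N₁ N₂ N₃ hN1 hN2 hN3 M₁ M₂ M₃ hM1 hM2 hM3 a b c m ha hb hc
  rw [sol_eq hs ht hv S S' S'' E E' E'' hN1 hN2 hN3, sol_eq hs ht hv Set.univ Set.univ Set.univ E E' E'' hN1 hN2 hN3]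
  simp only [res_univ]
  have h0 : ∀ {s : ℤ}, (s = 1 ∨ s = -1) → s ≠ 0 := by
    rintro s (rfl | rfl) <;> norm_num
  refine (H S S' S'' (inv_of hS) (inv_of hS') (inv_of hS'') δ δ' δ'' hδ hδ' hδ''
    E E' E'' hE hE' hE'' N hN N₁ N₂ N₃ hN1 hN2 hN3 M₁ M₂ M₃ hM1 hM2 hM3 (a * s) (b * t) (c * v) m
    (mul_ne_zero ha (h0 hs)) (mul_ne_zero hb (h0 ht)) (mul_ne_zero hc (h0 hv))).trans ?_
  exact mul_le_mul_of_nonneg_right (min_le_left _ _) (by positivity)

theorem corr_eq (s : ℤ) (N h : ℕ) (S S' : Set ℤ) (E E' : Set ℕ) :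
    (Corr s N h S S' E E' : ℝ) = Cor (fun x => ind s S x * ie E x) (fun x => ind s S' x * ie E' x) N h := by
  classical
  have e1 : {n : ℕ | 1 ≤ n ∧ n ≤ N ∧ n ∈ E ∧ n + h ∈ E' ∧ s * n ∈ S ∧ s * (n + h) ∈ S'} =
      ((Finset.Icc 1 N).filter (fun n : ℕ => n ∈ E ∧ n + h ∈ E' ∧ s * (n : ℤ) ∈ S ∧ s * ((n : ℤ) + h) ∈ S') : Finset ℕ) := by
    ext n
    simp only [Set.mem_ofPred_eq, Finset.coe_filter, Finset.mem_Icc]
    tauto
  unfold Corr
  rw [e1, Set.ncard_coe_finset, Finset.card_filter]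
  unfold Cor
  push_cast
  apply Finset.sum_congr rfl; intro n _
  have e2 : ((n : ℤ) + (h : ℤ)).toNat = n + h := by omega
  unfold ind ie
  rw [Int.toNat_natCast, e2]
  by_cases h1 : n ∈ E <;> by_cases h2 : s * (n : ℤ) ∈ S <;> by_cases h3 : n + h ∈ E' <;>
    by_cases h4 : s * ((n : ℤ) + h) ∈ S' <;> simp [h1, h2, h3, h4]

/-- correlations -/
theorem correlations {s : ℤ} (hs : s = 1 ∨ s = -1) {ε : ℝ} (hε : 0 < ε) :
    ∃ N₀ : ℕ, ∀ S S' : Set ℤ, Invariant S → Invariant S' →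
    ∃ δ δ' : ℝ, HasDensity s S δ ∧ HasDensity s S' δ' ∧ ∀ E E' : Set ℕ, Arithmetic E → Arithmetic E' →
    ∀ N : ℕ, N₀ ≤ N → ({h : ℕ | 1 ≤ h ∧ h ≤ N ∧ ε * N < |(Corr s N h S S' E E' : ℝ)
      - δ * δ' * Corr s N h Set.univ Set.univ E E'|}.ncard : ℝ) ≤ ε * N := by
  classical
  obtain ⟨N0, hN0, H⟩ := shiftsE hs (show 0 < min ε 1 from lt_min hε one_pos) (min_le_right _ _)
  refine ⟨N0, ?_⟩
  intro S S' hS hS'
  obtain ⟨δ, hδ, d1⟩ := HD_iff hs hS
  obtain ⟨δ', hδ', d2⟩ := HD_iff hs hS'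
  refine ⟨δ, δ', d1, d2, fun E E' hE hE' N hN => ?_⟩
  have h1 := H S S' (inv_of hS) (inv_of hS') δ δ' hδ hδ' E E' hE hE' N hN
  refine le_trans ?_ (h1.trans (mul_le_mul_of_nonneg_right (min_le_left _ _) (Nat.cast_nonneg _)))
  have e1 : ∀ h : ℕ, Cor (ie E) (ie E') N h = (Corr s N h Set.univ Set.univ E E' : ℝ) := by
    intro h
    rw [corr_eq]
    unfold Cor ind
    simp
  have h2 : {h : ℕ | 1 ≤ h ∧ h ≤ N ∧ ε * N < |(Corr s N h S S' E E' : ℝ)
      - δ * δ' * Corr s N h Set.univ Set.univ E E'|}.ncard ≤ Set.ncard (((Finset.Icc 1 N).filter (fun h : ℕ => min ε 1 * N <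
        |Cor (fun x => ind s S x * ie E x) (fun x => ind s S' x * ie E' x) N h - δ * δ' * Cor (ie E) (ie E') N h|) :
        Finset ℕ) : Set ℕ) := by
    apply Set.ncard_le_ncard
    · rintro h ⟨a1, a2, a3⟩
      rw [Finset.mem_coe, Finset.mem_filter, Finset.mem_Icc]
      refine ⟨⟨a1, a2⟩, ?_⟩
      rw [← corr_eq, e1]
      exact lt_of_le_of_lt (mul_le_mul_of_nonneg_right (min_le_left _ _) (Nat.cast_nonneg _)) a3
    · exact Finset.finite_toSet _
  rw [Set.ncard_coe_finset] at h2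
  exact_mod_cast h2

/-- sufficient sets -/
theorem sufficient {s : ℤ} (hs : s = 1 ∨ s = -1) {E : Set ℕ} (hE : Arithmetic E) {κ : ℝ} (hκ : 0 < κ) {ψ : ℕ → ℝ}
    (hψ : Tendsto ψ atTop (𝓝 0)) {S : Set ℤ} (hS : Invariant S)
    (h : ∃ᶠ N : ℕ in atTop, κ * N ≤ Count s N Set.univ E ∧ (Count s N Sᶜ E : ℝ) ≤ ψ N * N) :
    ∀ x : ℤ, 0 < s * x → x ∈ S := by
  intro x hx
  by_contra hcon
  have hSc : Invariant Sᶜ := fun x => not_congr (hS x)
  obtain ⟨δ, hδ, hδ'⟩ := HD_iff hs hSc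
  have hδ0 : 0 < δ := one_pos hs (inv_of hSc) hcon hx hδ
  obtain ⟨N0, hN0⟩ := count hs (show 0 < δ * κ / 2 by positivity)
  obtain ⟨δ₁, hd1, H⟩ := hN0 Sᶜ hSc
  have hdd : δ₁ = δ := tendsto_nhds_unique hd1 hδ'
  rw [hdd] at H
  have h1 : ∀ᶠ N : ℕ in atTop, ψ N < δ * κ / 2 := (tendsto_order.1 hψ).2 _ (by positivity)
  obtain ⟨N, ⟨h2, h3⟩, h4, h5⟩ := (h.and_eventually (h1.and (eventually_ge_atTop (N0 + 1)))).exists
  have h6 := (abs_le.1 (H N (by omega) E hE)).1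
  have hNp : (0 : ℝ) < N := by exact_mod_cast (by omega : 0 < N)
  have h7 : ψ N * N < δ * κ / 2 * N := mul_lt_mul_of_pos_right h4 hNp
  have h8 : δ * (κ * N) ≤ δ * Count s N Set.univ E := mul_le_mul_of_nonneg_left h2 hδ0.le
  linarith

/-- the classes of the number of prime factors -/
theorem omega_arith (q a : ℕ) (hq : 1 ≤ q) : Arithmetic {n : ℕ | ArithmeticFunction.cardFactors n % q = a % q} := by
  have : NeZero q := ⟨by omega⟩
  refine ⟨ZMod q, inferInstance, inferInstance, Set.univ, fun n => (ArithmeticFunction.cardFactors n : ZMod q),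
    (a : ZMod q), 1, 0, ?_, ?_, le_rfl, ?_⟩
  · intro m n _; simp
  · intro m n hmn
    rcases Nat.eq_zero_or_pos m with rfl | hm
    · rw [Nat.coprime_zero_left] at hmn
      subst hmn
      simp
    · rcases Nat.eq_zero_or_pos n with rfl | hn
      · rw [Nat.coprime_zero_right] at hmn
        subst hmn
        simp
      · show (ArithmeticFunction.cardFactors (m * n) : ZMod q) = ArithmeticFunction.cardFactors m
          + ArithmeticFunction.cardFactors n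
        rw [ArithmeticFunction.cardFactors_mul hm.ne' hn.ne']
        push_cast
        rfl
  · intro n
    simp only [Set.mem_ofPred_eq, Set.mem_univ, true_and, Nat.mod_one, and_true]
    rw [ZMod.natCast_eq_natCast_iff']

/-- the classes of the number of prime factors are large -/
theorem omega_dense (s : ℤ) (q a : ℕ) (hq : 1 ≤ q) : ∃ κ : ℝ, 0 < κ ∧ ∀ᶠ N : ℕ in atTop,
    κ * N ≤ Count s N Set.univ {n : ℕ | ArithmeticFunction.cardFactors n % q = a % q} := by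
  classical
  have hq0 : (0 : ℝ) < q := by exact_mod_cast hq
  refine ⟨1 / (2 * q * 2 ^ q), by positivity, ?_⟩
  filter_upwards [eventually_ge_atTop (2 * 2 ^ q)] with N hN
  set M := N / 2 ^ q with hM
  set A : Finset ℕ := (Finset.Icc 1 N).filter (fun n => ArithmeticFunction.cardFactors n % q = a % q) with hA
  have e1 : Count s N Set.univ {n : ℕ | ArithmeticFunction.cardFactors n % q = a % q} = A.card := by
    unfold Count
    rw [← Set.ncard_coe_finset]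
    congr 1
    ext n
    simp only [Set.mem_ofPred_eq, Set.mem_univ, and_true, hA, Finset.coe_filter, Finset.mem_Icc]
    tauto
  have h1 : M ≤ q * A.card := by
    have h2 : (Finset.Icc 1 M).card ≤ (Finset.range q ×ˢ A).card := by
      have hex : ∀ m ∈ Finset.Icc 1 M, ∃ j < q, ArithmeticFunction.cardFactors (2 ^ j * m) % q = a % q := by
        intro m hm
        rw [Finset.mem_Icc] at hm
        have hc : ∀ j, ArithmeticFunction.cardFactors (2 ^ j * m) = j + ArithmeticFunction.cardFactors m := by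
          intro j
          rw [ArithmeticFunction.cardFactors_mul (by positivity) (by omega), ArithmeticFunction.cardFactors_pow,
            ArithmeticFunction.cardFactors_apply_prime Nat.prime_two, mul_one]
        set o := ArithmeticFunction.cardFactors m with ho
        refine ⟨(a % q + (q - o % q)) % q, Nat.mod_lt _ (by omega), ?_⟩
        rw [hc]
        have h3 : o % q < q := Nat.mod_lt _ (by omega)
        have h4 : ((a % q + (q - o % q)) % q + o) % q = (a % q + (q - o % q) + o % q) % q :=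
          Nat.ModEq.add (Nat.mod_modEq _ q) (Nat.mod_modEq o q).symm
        rw [h4]
        have h5 : a % q + (q - o % q) + o % q = a % q + q := by omega
        rw [h5, Nat.add_mod_right, Nat.mod_mod]
      choose! j hj1 hj2 using hex
      apply Finset.card_le_card_of_injOn (fun m => (j m, 2 ^ j m * m))
      · intro m hm
        rw [Finset.mem_coe] at hm
        have hm' := Finset.mem_Icc.1 hm
        rw [Finset.mem_coe, Finset.mem_product, Finset.mem_range]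
        refine ⟨hj1 m hm, ?_⟩
        rw [hA, Finset.mem_filter, Finset.mem_Icc]
        refine ⟨⟨Nat.mul_pos (by positivity) (by omega), ?_⟩, hj2 m hm⟩
        calc 2 ^ j m * m ≤ 2 ^ q * M := Nat.mul_le_mul (Nat.pow_le_pow_right (by norm_num) (hj1 m hm).le) hm'.2
          _ ≤ N := Nat.mul_div_le N (2 ^ q)
      · intro m hm m' hm' heq
        simp only [Prod.mk.injEq] at heq
        obtain ⟨h6, h7⟩ := heq
        rw [h6] at h7
        exact Nat.eq_of_mul_eq_mul_left (by positivity) h7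
    rw [Nat.card_Icc, Nat.add_sub_cancel, Finset.card_product, Finset.card_range] at h2
    exact h2
  have h2 : (N : ℝ) ≤ 2 * 2 ^ q * M := by
    have h3 : N < 2 ^ q * (N / 2 ^ q + 1) := Nat.lt_mul_div_succ N (by positivity)
    have h4 : 1 ≤ N / 2 ^ q := (Nat.le_div_iff_mul_le (by positivity)).2 (by omega)
    have h5 : N ≤ 2 * 2 ^ q * M := by rw [hM]; nlinarith [Nat.pos_of_ne_zero (by positivity : 2 ^ q ≠ 0)]
    exact_mod_cast h5
  have h3 : (M : ℝ) ≤ q * A.card := by exact_mod_cast h1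
  rw [e1, div_mul_eq_mul_div, one_mul, div_le_iff₀ (by positivity)]
  calc (N : ℝ) ≤ 2 * 2 ^ q * M := h2
    _ ≤ 2 * 2 ^ q * (q * A.card) := mul_le_mul_of_nonneg_left h3 (by positivity)
    _ = _ := by ring

theorem sufficient_omega {s : ℤ} (hs : s = 1 ∨ s = -1) {q : ℕ} (hq : 1 ≤ q) (a : ℕ) {ψ : ℕ → ℝ}
    (hψ : Tendsto ψ atTop (𝓝 0)) {S : Set ℤ} (hS : Invariant S)
    (h : ∃ᶠ N : ℕ in atTop, (Count s N Sᶜ {n : ℕ | ArithmeticFunction.cardFactors n % q = a % q} : ℝ) ≤ ψ N * N) :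
    ∀ x : ℤ, 0 < s * x → x ∈ S := by
  obtain ⟨κ, hκ, h1⟩ := omega_dense s q a hq
  refine sufficient hs (omega_arith q a hq) hκ hψ hS ?_
  exact (h.and_eventually h1).mono fun N hN => ⟨hN.2, hN.1⟩

/-- (1) The indicator function of every invariant set minus its density is orthogonal to every
multiplicative function with values in the unit disc twisted by any exponential function, uniformly in
the invariant set, the multiplicative function and the frequency.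
(2) Every invariant set has in every arithmetic class the same relative density as among all
integers, with an error `ε N` that is uniform in the invariant set and in the class.
(3) The same for the correlations of two invariant sets and two arithmetic classes at all but `ε N` of
the shifts up to `N`.
(4) If, for infinitely many `N`, an arithmetic class has at least `κ N` elements up to `N` of which all
but `o(N)` are in the invariant set `S`, then `S` contains all positive integers.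
(5) This for the classes of the integers whose number of prime factors is `a` modulo `q`.
(All this for the negative integers too.)
(6) The number of the solutions of a linear equation in three unknowns from given parts of invariant
sets, arithmetic classes and intervals is the number of all solutions from the classes and
intervals, times the product of the densities, up to `ε N ^ 2`, uniformly.
(7) If the hypothesis of (5) holds for the set of the integers whose trajectories reach the known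
cycles, for both signs, then all integers reach the known cycles. -/
theorem result :
    (∀ s : ℤ, (s = 1 ∨ s = -1) →
      (∀ ε : ℝ, 0 < ε → ∃ N₀ : ℕ, ∀ S : Set ℤ, Invariant S → ∃ δ : ℝ, HasDensity s S δ ∧
        ∀ N : ℕ, N₀ ≤ N → ∀ g : ℕ → ℂ, Multiplicative g → ∀ α : ℝ,
          ‖∑ n ∈ Finset.Icc 1 N, ((S.indicator (fun _ => (1 : ℝ)) (s * n) - δ : ℝ) : ℂ) * g n * e (α * n)‖ ≤ ε * N) ∧
      (∀ ε : ℝ, 0 < ε → ∃ N₀ : ℕ, ∀ S : Set ℤ, Invariant S → ∃ δ : ℝ, HasDensity s S δ ∧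
        ∀ N : ℕ, N₀ ≤ N → ∀ E : Set ℕ, Arithmetic E →
          |(Count s N S E : ℝ) - δ * Count s N Set.univ E| ≤ ε * N) ∧
      (∀ ε : ℝ, 0 < ε → ∃ N₀ : ℕ, ∀ S S' : Set ℤ, Invariant S → Invariant S' →
        ∃ δ δ' : ℝ, HasDensity s S δ ∧ HasDensity s S' δ' ∧ ∀ E E' : Set ℕ, Arithmetic E → Arithmetic E' →
        ∀ N : ℕ, N₀ ≤ N → ({h : ℕ | 1 ≤ h ∧ h ≤ N ∧ ε * N < |(Corr s N h S S' E E' : ℝ)
          - δ * δ' * Corr s N h Set.univ Set.univ E E'|}.ncard : ℝ) ≤ ε * N) ∧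
      (∀ E : Set ℕ, Arithmetic E → ∀ κ : ℝ, 0 < κ → ∀ ψ : ℕ → ℝ, Tendsto ψ atTop (𝓝 0) → ∀ S : Set ℤ, Invariant S →
        (∃ᶠ N : ℕ in atTop, κ * N ≤ Count s N Set.univ E ∧ (Count s N Sᶜ E : ℝ) ≤ ψ N * N) →
        ∀ x : ℤ, 0 < s * x → x ∈ S) ∧
      (∀ q a : ℕ, 1 ≤ q → ∀ ψ : ℕ → ℝ, Tendsto ψ atTop (𝓝 0) → ∀ S : Set ℤ, Invariant S →
        (∃ᶠ N : ℕ in atTop, (Count s N Sᶜ {n : ℕ | ArithmeticFunction.cardFactors n % q = a % q} : ℝ) ≤ ψ N * N) →
        ∀ x : ℤ, 0 < s * x → x ∈ S)) ∧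
    (∀ s t v : ℤ, (s = 1 ∨ s = -1) → (t = 1 ∨ t = -1) → (v = 1 ∨ v = -1) → ∀ ε : ℝ, 0 < ε → ∃ N₀ : ℕ,
      ∀ S S' S'' : Set ℤ, Invariant S → Invariant S' → Invariant S'' →
      ∃ δ δ' δ'' : ℝ, HasDensity s S δ ∧ HasDensity t S' δ' ∧ HasDensity v S'' δ'' ∧
      ∀ E E' E'' : Set ℕ, Arithmetic E → Arithmetic E' → Arithmetic E'' →
      ∀ N : ℕ, N₀ ≤ N → ∀ N₁ N₂ N₃ : ℕ, N₁ ≤ N → N₂ ≤ N → N₃ ≤ N → ∀ M₁ M₂ M₃ : ℕ, M₁ ≤ N₁ → M₂ ≤ N₂ → M₃ ≤ N₃ →
      ∀ a b c m : ℤ, a ≠ 0 → b ≠ 0 → c ≠ 0 →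
      |(Sol a b c m (Part s M₁ N₁ S E) (Part t M₂ N₂ S' E') (Part v M₃ N₃ S'' E'') : ℝ)
        - δ * δ' * δ'' * Sol a b c m (Part s M₁ N₁ Set.univ E) (Part t M₂ N₂ Set.univ E') (Part v M₃ N₃ Set.univ E'')|
        ≤ ε * N ^ 2) ∧
    (∀ (q : ℕ) (a : ℤ → ℕ), 1 ≤ q → ∀ ψ : ℕ → ℝ, Tendsto ψ atTop (𝓝 0) →
      (∀ s : ℤ, (s = 1 ∨ s = -1) → ∃ᶠ N : ℕ in atTop,
        (Count s N {x | ¬ Reaches x} {n : ℕ | ArithmeticFunction.cardFactors n % q = a s % q} : ℝ) ≤ ψ N * N) →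
      ∀ x : ℤ, Reaches x) := by
  refine ⟨fun s hs => ⟨fun ε hε => orth hs hε, fun ε hε => count hs hε, fun ε hε => correlations hs hε,
    fun E hE κ hκ ψ hψ S hS h => sufficient hs hE hκ hψ hS h,
    fun q a hq ψ hψ S hS h => sufficient_omega hs hq a hψ hS h⟩,
    fun s t v hs ht hv ε hε => linear hs ht hv hε, ?_⟩
  intro q a hq ψ hψ h x
  have key : ∀ s : ℤ, (s = 1 ∨ s = -1) → ∀ x : ℤ, 0 < s * x → Reaches x := by
    intro s hs x hx
    have := sufficient_omega hs hq (a s) hψ reaches_inv (h s hs) x hx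
    exact this
  rcases lt_trichotomy x 0 with hx | hx | hx
  · exact key (-1) (Or.inr rfl) x (by omega)
  · rw [hx]; exact ⟨0, by decide⟩
  · exact key 1 (Or.inl rfl) x (by omega)

end Pool.Agent.Results.MP_d02c56_nt.MultiplicativeOrthogonality
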